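import Pool.Agent.H17.EQ.TargetsQ
import Pool.Agent.H17.BO.TargetsD

/-! Board ee_modules, row TCR: transfer of `ConR`. After `Pool/Agent/H60/BO/TF3.lean`. -/

set_option autoImplicit false

open Filter

namespace Pool.Agent.H89.EQ

open MvPolynomial SC Pool.Agent.H27.LV Pool.Agent.H17.VG Pool.Agent.H17.BO Pool.Agent.H30.EE
  Pool.Agent.H17.EQ

section

variable {K : ℕ → Type} [∀ i, Field (K i)] {L : Type} [Field L] (π : (∀ i, K i) →+* L)

/-- a polynomial which vanishes in the ultraproduct vanishes at almost all indices -/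
private theorem poly_zero
    (hker : ∀ f, π f = 0 ↔ ∀ᶠ i in (hyperfilter ℕ : Filter ℕ), f i = 0)
    (p : Polynomial (∀ i, K i)) (hp : p.map π = 0) :
    ∀ᶠ i in (hyperfilter ℕ : Filter ℕ), p.map (Pi.evalRingHom K i) = 0 := by
  have h1 : ∀ n ∈ p.support, ∀ᶠ i in (hyperfilter ℕ : Filter ℕ), p.coeff n i = 0 := by
    intro n _
    rw [← hker, ← Polynomial.coeff_map, hp, Polynomial.coeff_zero]
  have h2 := (Filter.eventually_all_finset p.support).2 h1
  filter_upwards [h2] with i hi
  ext n
  rw [Polynomial.coeff_map, Polynomial.coeff_zero, Pi.evalRingHom_apply]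
  by_cases hn : n ∈ p.support
  · exact hi n hn
  · rw [Polynomial.notMem_support_iff.1 hn]
    rfl

/-- transfer of a divisibility -/
private theorem dvd_transfer (hsurj : Function.Surjective π)
    (hker : ∀ f, π f = 0 ↔ ∀ᶠ i in (hyperfilter ℕ : Filter ℕ), f i = 0)
    (U G : Polynomial (∀ i, K i)) (h : U.map π ∣ G.map π) :
    ∀ᶠ i in (hyperfilter ℕ : Filter ℕ),
      U.map (Pi.evalRingHom K i) ∣ G.map (Pi.evalRingHom K i) := by
  obtain ⟨W, hW⟩ := h
  obtain ⟨W0, hW0⟩ := Polynomial.map_surjective π hsurj W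
  have h1 := poly_zero π hker (G - U * W0) (by
    rw [Polynomial.map_sub, Polynomial.map_mul, hW0, hW, sub_self])
  filter_upwards [h1] with i hi
  rw [Polynomial.map_sub, Polynomial.map_mul, sub_eq_zero] at hi
  exact ⟨_, hi⟩

end

private theorem map_aev {n : ℕ} {S T : Type} [CommRing S] [CommRing T] (f : S →+* T)
    (g : Fin (n + 1) → Polynomial S) (F : MvPolynomial (Fin (n + 1)) S) :
    (aeval g F).map f = aeval (fun i => (g i).map f) (MvPolynomial.map f F) := by
  have h : (Polynomial.mapRingHom f).comp (aeval g).toRingHom =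
      ((aeval (fun i => (g i).map f)).toRingHom).comp (MvPolynomial.map f) := by
    apply MvPolynomial.ringHom_ext
    · intro r
      simp
    · intro i
      simp
  exact RingHom.congr_fun h F

section

variable {k K : ℕ → Type} [∀ i, Field (k i)] [∀ i, IsAlgClosed (k i)] [∀ i, CharZero (k i)]
  [∀ i, Field (K i)] [∀ i, Algebra (k i) (K i)] [∀ i, Algebra.EssFiniteType (k i) (K i)]

/-- heights of the specialisations of a polynomial -/
private theorem hgt_poly (hHTA : T_HTA) (htr : ∀ i, Algebra.trdeg (k i) (K i) = 1) (B : ℕ → ℕ)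
    (p : Polynomial (∀ i, K i))
    (hp : ∀ m, ∃ N : ℕ, ∀ᶠ i in (hyperfilter ℕ : Filter ℕ), h1 (k i) (p.coeff m i) ≤ N * B i) :
    ∃ N : ℕ, (∀ᶠ i in (hyperfilter ℕ : Filter ℕ),
      hP (k i) (p.map (Pi.evalRingHom K i)) ≤ N * B i) ∧
      ∀ i, (p.map (Pi.evalRingHom K i)).natDegree ≤ N := by
  choose N hN using hp
  refine ⟨(∑ m ∈ Finset.range (p.natDegree + 1), N m) + p.natDegree, ?_, ?_⟩
  · have h2 := (Filter.eventually_all_finset (Finset.range (p.natDegree + 1))).2
      fun m (_ : m ∈ Finset.range (p.natDegree + 1)) => hN m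
    filter_upwards [h2] with i hi
    set P := p.map (Pi.evalRingHom K i) with hPdef
    have hd : P.natDegree ≤ p.natDegree := Polynomial.natDegree_map_le
    have h3 : hP (k i) P ≤ ∑ m : Fin (P.natDegree + 1), h1 (k i) (P.coeff m) :=
      ((hHTA (k i) (K i) (htr i) 0 0).2.2.2.2 (Fin (P.natDegree + 1)) _).2
    have h4 : ∑ m : Fin (P.natDegree + 1), h1 (k i) (P.coeff m) =
        ∑ m ∈ Finset.range (P.natDegree + 1), h1 (k i) (P.coeff m) :=
      Fin.sum_univ_eq_sum_range (fun m => h1 (k i) (P.coeff m)) (P.natDegree + 1)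
    have h5 : ∑ m ∈ Finset.range (P.natDegree + 1), h1 (k i) (P.coeff m) ≤
        ∑ m ∈ Finset.range (p.natDegree + 1), h1 (k i) (P.coeff m) :=
      Finset.sum_le_sum_of_subset (Finset.range_mono (by omega))
    have h6 : ∑ m ∈ Finset.range (p.natDegree + 1), h1 (k i) (P.coeff m) ≤
        ∑ m ∈ Finset.range (p.natDegree + 1), N m * B i := by
      refine Finset.sum_le_sum fun m hm => ?_
      have h7 : P.coeff m = p.coeff m i := by
        rw [hPdef, Polynomial.coeff_map, Pi.evalRingHom_apply]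
      rw [h7]
      exact hi m hm
    rw [← Finset.sum_mul] at h6
    rw [h4] at h3
    calc hP (k i) P ≤ (∑ m ∈ Finset.range (p.natDegree + 1), N m) * B i := by omega
      _ ≤ _ := Nat.mul_le_mul_right _ (by omega)
  · intro i
    have hd : (p.map (Pi.evalRingHom K i)).natDegree ≤ p.natDegree := Polynomial.natDegree_map_le
    omega

end

theorem pf_TCR (hHTA : T_HTA) : T_TCR := by
  classical
  intro k K _ _ _ _ _ _ htr B L _ k' _ _ π hsurj hker hran n d r x c c' hc U Z V hC
  -- lifts of polynomials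
  have hpl : ∀ p : Polynomial L, ∃ p0 : Polynomial (∀ i, K i), p0.map π = p :=
    Polynomial.map_surjective π hsurj
  obtain ⟨U0, hU0, hU0d, hU0m⟩ := Polynomial.lifts_and_natDegree_eq_and_monic
    (f := π) (p := U.map (algebraMap k' L)) ((Polynomial.mem_lifts _).2 (hpl _)) hC.monic
  choose Z0 hZ0 using fun (i : Fin (r + 1)) (l : Fin (n + 1)) => hpl ((Z i l).map (algebraMap k' L))
  choose V0 hV0 using fun (i : Fin (r + 1)) (l : Fin (n + 1)) => hpl ((V i l).map (algebraMap k' L))
  -- the form
  set F0 : MvPolynomial (Fin (n + 1)) (∀ i, K i) := ∑ f : Mon (n + 1) d,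
    C (fun i => algebraMap (k i) (K i) (c i f)) * monomial (fs f.1) 1 with hF0
  have hFπ : MvPolynomial.map π F0 = up L (frm c') := by
    rw [hF0, up, frm, map_sum, map_sum]
    refine Finset.sum_congr rfl fun f _ => ?_
    simp only [map_mul, MvPolynomial.map_C, mono, MvPolynomial.map_monomial, RingHom.map_one, hc]
  have hFi : ∀ i, MvPolynomial.map (Pi.evalRingHom K i) F0 = up (K i) (frm (c i)) := by
    intro i
    rw [hF0, up, frm, map_sum, map_sum]
    refine Finset.sum_congr rfl fun f _ => ?_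
    simp only [map_mul, MvPolynomial.map_C, mono, MvPolynomial.map_monomial, RingHom.map_one]
    rfl
  set xx : Fin (n + 1) → ∀ i, K i := fun j i => x i j with hxx
  have hxi : ∀ i j, Pi.evalRingHom K i (xx j) = x i j := fun i j => rfl
  -- the divisibilities
  have e0 := dvd_transfer π hsurj hker U0 (aeval (Z0 0) F0) (by
    rw [map_aev, hFπ, hU0]
    simp only [hZ0]
    exact hC.p0)
  have e1 := dvd_transfer π hsurj hker U0 (aeval (fun j => ∑ i, Z0 i j) F0) (by
    rw [map_aev, hFπ, hU0]
    simp only [Polynomial.map_sum, hZ0]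
    exact hC.p1)
  have e2 := dvd_transfer π hsurj hker U0 (aeval (Z0 (Fin.last r)) F0) (by
    rw [map_aev, hFπ, hU0]
    simp only [hZ0]
    exact hC.p2)
  have e3 : ∀ i i' : Fin (r + 1), ∀ᶠ t in (hyperfilter ℕ : Filter ℕ),
      U0.map (Pi.evalRingHom K t) ∣
        (∑ l, V0 i l * Z0 i' l - (if i = i' then 1 else 0)).map (Pi.evalRingHom K t) := by
    intro i i'
    refine dvd_transfer π hsurj hker U0 _ ?_
    rw [hU0]
    have h := hC.inv i i'
    have e : (∑ l, V0 i l * Z0 i' l - (if i = i' then 1 else 0)).map π =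
        ∑ l, (V i l).map (algebraMap k' L) * (Z i' l).map (algebraMap k' L) -
          (if i = i' then 1 else 0) := by
      rw [Polynomial.map_sub, Polynomial.map_sum]
      congr 1
      · refine Finset.sum_congr rfl fun l _ => ?_
        rw [Polynomial.map_mul, hV0, hZ0]
      · by_cases hii : i = i'
        · rw [if_pos hii, if_pos hii, Polynomial.map_one]
        · rw [if_neg hii, if_neg hii, Polynomial.map_zero]
    rw [e]
    exact h
  have hAV : ∀ i, (∑ l, V0 i l * Polynomial.C (xx l)).map π =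
      AV (fun i l => (V i l).map (algebraMap k' L)) (fun j => π fun i => x i j) i := by
    intro i
    unfold AV
    rw [Polynomial.map_sum]
    refine Finset.sum_congr rfl fun l _ => ?_
    rw [Polynomial.map_mul, Polynomial.map_C, hV0]
  have hAVt : ∀ t i, (∑ l, V0 i l * Polynomial.C (xx l)).map (Pi.evalRingHom K t) =
      AV (fun i l => (V0 i l).map (Pi.evalRingHom K t)) (x t) i := by
    intro t i
    unfold AV
    rw [Polynomial.map_sum]
    refine Finset.sum_congr rfl fun l _ => ?_
    rw [Polynomial.map_mul, Polynomial.map_C, hxi]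
  have e4 : ∀ j : Fin (n + 1), ∀ᶠ t in (hyperfilter ℕ : Filter ℕ),
      U0.map (Pi.evalRingHom K t) ∣
        (∑ i, Z0 i j * (∑ l, V0 i l * Polynomial.C (xx l)) - Polynomial.C (xx j)).map
          (Pi.evalRingHom K t) := by
    intro j
    refine dvd_transfer π hsurj hker U0 _ ?_
    rw [hU0, Polynomial.map_sub, Polynomial.map_sum, Polynomial.map_C]
    have h := hC.pt j
    simp only [Polynomial.map_mul, hAV, hZ0]
    exact h
  have e5 : ∀ y : Fin (r + 1) × Fin (r + 1) × Fin (r + 1) × Fin (r + 1),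
      ∀ᶠ t in (hyperfilter ℕ : Filter ℕ), (y.1 : ℕ) + y.2.1 = y.2.2.1 + y.2.2.2 →
      U0.map (Pi.evalRingHom K t) ∣
        ((∑ l, V0 y.1 l * Polynomial.C (xx l)) * (∑ l, V0 y.2.1 l * Polynomial.C (xx l)) -
        (∑ l, V0 y.2.2.1 l * Polynomial.C (xx l)) *
          (∑ l, V0 y.2.2.2 l * Polynomial.C (xx l))).map (Pi.evalRingHom K t) := by
    rintro ⟨i, i', l, l'⟩
    by_cases hs : (i : ℕ) + i' = l + l'
    · have h := dvd_transfer π hsurj hker U0
        ((∑ l, V0 i l * Polynomial.C (xx l)) * (∑ l, V0 i' l * Polynomial.C (xx l)) -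
        (∑ j, V0 l j * Polynomial.C (xx j)) * (∑ j, V0 l' j * Polynomial.C (xx j))) (by
          rw [hU0, Polynomial.map_sub, Polynomial.map_mul, Polynomial.map_mul, hAV, hAV, hAV, hAV]
          exact hC.rnc i i' l l' hs)
      filter_upwards [h] with t ht _
      exact ht
    · filter_upwards with t ht
      exact absurd ht hs
  -- separability
  obtain ⟨a, b, hab⟩ := hC.sep
  obtain ⟨a0, ha0⟩ := hpl a
  obtain ⟨b0, hb0⟩ := hpl b
  have e6 : ∀ᶠ i in (hyperfilter ℕ : Filter ℕ),
      (a0 * U0 + b0 * Polynomial.derivative U0 - 1).map (Pi.evalRingHom K i) = 0 := by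
    refine poly_zero π hker _ ?_
    rw [Polynomial.map_sub, Polynomial.map_add, Polynomial.map_mul, Polynomial.map_mul,
      ← Polynomial.derivative_map, hU0, ha0, hb0, Polynomial.map_one, sub_eq_zero]
    exact hab
  -- heights
  have rp : ∀ (p0 : Polynomial (∀ i, K i)) (p : Polynomial k'),
      p0.map π = p.map (algebraMap k' L) → ∀ m, ∃ N : ℕ,
      ∀ᶠ i in (hyperfilter ℕ : Filter ℕ), h1 (k i) (p0.coeff m i) ≤ N * B i := by
    intro p0 p hp m
    refine (hran _).1 ⟨p.coeff m, ?_⟩
    rw [← Polynomial.coeff_map, ← Polynomial.coeff_map, hp]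
  obtain ⟨N3, hN3, hD3⟩ := hgt_poly hHTA htr B U0 (rp U0 U hU0)
  choose N4 hN4 hD4 using fun (y : Fin (r + 1) × Fin (n + 1)) =>
    hgt_poly hHTA htr B (Z0 y.1 y.2) (rp (Z0 y.1 y.2) (Z y.1 y.2) (hZ0 y.1 y.2))
  choose N5 hN5 hD5 using fun (y : Fin (r + 1) × Fin (n + 1)) =>
    hgt_poly hHTA htr B (V0 y.1 y.2) (rp (V0 y.1 y.2) (V y.1 y.2) (hV0 y.1 y.2))
  have hN4s : ∀ y, N4 y ≤ Finset.univ.sup N4 := fun y => Finset.le_sup (Finset.mem_univ y)
  have hN5s : ∀ y, N5 y ≤ Finset.univ.sup N5 := fun y => Finset.le_sup (Finset.mem_univ y)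
  refine ⟨N3 + Finset.univ.sup N4 + Finset.univ.sup N5, ?_⟩
  have hle : ∀ {M v i : ℕ}, M ≤ N3 + Finset.univ.sup N4 + Finset.univ.sup N5 → v ≤ M * B i →
      v ≤ (N3 + Finset.univ.sup N4 + Finset.univ.sup N5) * B i :=
    fun h1 h2 => h2.trans (Nat.mul_le_mul_right _ h1)
  filter_upwards [e0, e1, e2, Filter.eventually_all.2 fun y : Fin (r + 1) × Fin (r + 1) =>
    e3 y.1 y.2, Filter.eventually_all.2 e4, Filter.eventually_all.2 e5, e6, hN3,
    Filter.eventually_all.2 hN4, Filter.eventually_all.2 hN5] with t f0 f1 f2 f3 f4 f5 f6 g3 g4 g5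
  refine ⟨U0.map (Pi.evalRingHom K t), fun i l => (Z0 i l).map (Pi.evalRingHom K t),
    fun i l => (V0 i l).map (Pi.evalRingHom K t), ?_, ?_⟩
  · constructor
    · exact hU0m.map _
    · refine ⟨a0.map (Pi.evalRingHom K t), b0.map (Pi.evalRingHom K t), ?_⟩
      rw [Polynomial.map_sub, Polynomial.map_add, Polynomial.map_mul, Polynomial.map_mul,
        ← Polynomial.derivative_map, Polynomial.map_one, sub_eq_zero] at f6
      exact f6
    · rw [hU0m.natDegree_map, hU0d]
      exact hC.deg1
    · rw [map_aev, hFi] at f0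
      exact f0
    · rw [map_aev, hFi] at f1
      simp only [Polynomial.map_sum] at f1
      exact f1
    · rw [map_aev, hFi] at f2
      exact f2
    · intro i i'
      have h := f3 (i, i')
      have e : (∑ l, V0 i l * Z0 i' l - (if i = i' then 1 else 0)).map (Pi.evalRingHom K t) =
          ∑ l, (V0 i l).map (Pi.evalRingHom K t) * (Z0 i' l).map (Pi.evalRingHom K t) -
            (if i = i' then 1 else 0) := by
        rw [Polynomial.map_sub, Polynomial.map_sum]
        congr 1
        · refine Finset.sum_congr rfl fun l _ => ?_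
          rw [Polynomial.map_mul]
        · by_cases hii : i = i'
          · rw [if_pos hii, if_pos hii, Polynomial.map_one]
          · rw [if_neg hii, if_neg hii, Polynomial.map_zero]
      rw [← e]
      exact h
    · intro j
      have h := f4 j
      rw [Polynomial.map_sub, Polynomial.map_sum, Polynomial.map_C, hxi] at h
      simp only [Polynomial.map_mul, hAVt] at h
      exact h
    · intro i i' l l' hs
      have h := f5 (i, i', l, l') hs
      rw [Polynomial.map_sub, Polynomial.map_mul, Polynomial.map_mul, hAVt, hAVt, hAVt,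
        hAVt] at h
      exact h
  · constructor
    · exact hle (by omega) g3
    · intro i l
      have := hN4s (i, l)
      exact hle (by omega) (g4 (i, l))
    · intro i l
      have := hN5s (i, l)
      exact hle (by omega) (g5 (i, l))
    · exact (hD3 t).trans (by omega)
    · intro i l
      have := hN4s (i, l)
      exact (hD4 (i, l) t).trans (by omega)
    · intro i l
      have := hN5s (i, l)
      exact (hD5 (i, l) t).trans (by omega)

end Pool.Agent.H89.EQ
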