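import Pool.Agent.H92.EQ.TF2

/-!
L2: Euler identities and homogeneity of the derivatives (row L2 of the board eqd_modules,
MP_75a732_an).
-/

set_option autoImplicit false

namespace Pool.Agent.H89.EQ

open scoped BigOperators ComplexConjugate ContDiff ComplexOrder Topology
open MeasureTheory Pool.Agent.H92.EQ Filter

section
variable {ι : Type} [Fintype ι] [DecidableEq ι]

omit [Fintype ι] in
theorem l2_congr {f g : (ι → ℂ) → ℂ} {z : ι → ℂ} (h : f =ᶠ[𝓝 z] g) (a : ι) :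
    wd a f z = wd a g z ∧ wdb a f z = wdb a g z := by
  unfold wd wdb
  rw [h.fderiv_eq]
  exact ⟨rfl, rfl⟩

omit [Fintype ι] in
theorem l2_const (a : ι) (c : ℂ) (z : ι → ℂ) :
    wd a (fun _ => c) z = 0 ∧ wdb a (fun _ => c) z = 0 := by
  unfold wd wdb
  have : fderiv ℝ (fun _ : ι → ℂ => c) z = 0 := (hasFDerivAt_const c z).fderiv
  rw [this]
  simp

omit [Fintype ι] in
theorem l2_coord (a b : ι) (z : ι → ℂ) : wdb b (fun w : ι → ℂ => w a) z = 0 := by
  unfold wdb
  have : fderiv ℝ (fun w : ι → ℂ => w a) z = ContinuousLinearMap.proj (R := ℝ) a :=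
    (ContinuousLinearMap.proj (R := ℝ) (φ := fun _ : ι => ℂ) a).hasFDerivAt.fderiv
  rw [this]
  simp only [ContinuousLinearMap.proj_apply]
  by_cases h : a = b
  · subst h
    simp
  · rw [Pi.single_eq_of_ne h, Pi.single_eq_of_ne h]
    simp

theorem l2_sum {κ : Type} [Fintype κ] (b : ι) (f : κ → (ι → ℂ) → ℂ) (z : ι → ℂ)
    (h : ∀ a, DifferentiableAt ℝ (f a) z) :
    wdb b (fun w => ∑ a, f a w) z = ∑ a, wdb b (f a) z := by
  unfold wdb
  have h1 : fderiv ℝ (fun w => ∑ a, f a w) z = ∑ a, fderiv ℝ (f a) z :=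
    (HasFDerivAt.fun_sum fun a _ => (h a).hasFDerivAt).fderiv
  rw [h1]
  simp only [sum_apply]
  rw [Finset.mul_sum, ← Finset.sum_add_distrib, Finset.sum_div]

theorem l2_chain (h0 : T_W0) (a : ι) (f : (ι → ℂ) → ℂ) (l : ℂ) (z : ι → ℂ)
    (hf : DifferentiableAt ℝ f (l • z)) :
    wd a (fun w => f (l • w)) z = l * wd a f (l • z) ∧
    wdb a (fun w => f (l • w)) z = conj l * wdb a f (l • z) := by
  have h : HasFDerivAt (fun w : ι → ℂ => f (l • w))
      ((fderiv ℝ f (l • z)).comp (l • ContinuousLinearMap.id ℝ (ι → ℂ))) z :=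
    hf.hasFDerivAt.comp z ((hasFDerivAt_id z).const_smul l)
  have h1 : ∀ v, fderiv ℝ (fun w : ι → ℂ => f (l • w)) z v = fderiv ℝ f (l • z) (l • v) := by
    intro v
    rw [h.fderiv]
    rfl
  have h2 : ∀ c : ℂ, fderiv ℝ f (l • z) (l • Pi.single a c) =
      wd a f (l • z) * (l * c) + wdb a f (l • z) * conj (l * c) := by
    intro c
    rw [h0, Finset.sum_eq_single a]
    · simp
    · intro b _ hb
      simp [Pi.single_eq_of_ne hb]
    · intro h
      exact absurd (Finset.mem_univ _) h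
  constructor
  · change (fderiv ℝ (fun w => f (l • w)) z (Pi.single a 1) -
      Complex.I * fderiv ℝ (fun w => f (l • w)) z (Pi.single a Complex.I)) / 2 = _
    rw [h1, h1, h2, h2, map_mul, map_mul, map_one, Complex.conj_I]
    linear_combination ((-(wd a f (l • z) * l) + wdb a f (l • z) * conj l) / 2) *
      Complex.I_mul_I
  · change (fderiv ℝ (fun w => f (l • w)) z (Pi.single a 1) +
      Complex.I * fderiv ℝ (fun w => f (l • w)) z (Pi.single a Complex.I)) / 2 = _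
    rw [h1, h1, h2, h2, map_mul, map_mul, map_one, Complex.conj_I]
    linear_combination ((wd a f (l • z) * l - wdb a f (l • z) * conj l) / 2) *
      Complex.I_mul_I

end

section
variable {N : ℕ} {c : ℝ} {u : (Fin N → ℂ) → ℝ}

theorem l2_smooth (hu : LH c u) : ContDiffOn ℝ ∞ (cx u) {0}ᶜ :=
  Complex.ofRealCLM.contDiff.comp_contDiffOn hu.smooth

theorem l2_nhds {z : Fin N → ℂ} (hz : z ≠ 0) : ({0}ᶜ : Set (Fin N → ℂ)) ∈ 𝓝 z :=
  isOpen_compl_singleton.mem_nhds hz

theorem l2_ray (hu : LH c u) {z : Fin N → ℂ} (hz : z ≠ 0) (ξ : ℂ) :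
    fderiv ℝ (cx u) z (ξ • z) = ((c * ξ.re : ℝ) : ℂ) := by
  have hd : DifferentiableAt ℝ (cx u) z :=
    ((l2_smooth hu).contDiffAt (l2_nhds hz)).differentiableAt (by simp)
  have hγ : HasDerivAt (fun t : ℝ => Complex.exp (ξ * t) • z) (ξ • z) 0 := by
    have h1 : HasDerivAt (fun t : ℝ => ξ * (t : ℂ)) ξ 0 := by
      have := (Complex.ofRealCLM.hasDerivAt (x := (0 : ℝ))).const_mul ξ
      simpa using this
    have h2 := h1.cexp
    have h3 : Complex.exp (ξ * ((0 : ℝ) : ℂ)) * ξ = ξ := by simp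
    rw [h3] at h2
    exact h2.smul_const z
  have hz0 : (fun t : ℝ => Complex.exp (ξ * t) • z) 0 = z := by simp
  have hd' : HasFDerivAt (cx u) (fderiv ℝ (cx u) z)
      ((fun t : ℝ => Complex.exp (ξ * t) • z) 0) := by
    rw [hz0]
    exact hd.hasFDerivAt
  have h1 := hd'.comp_hasDerivAt (0 : ℝ) hγ
  have h2 : (cx u ∘ fun t : ℝ => Complex.exp (ξ * t) • z) =
      fun t : ℝ => ((u z : ℝ) : ℂ) + ((c * ξ.re : ℝ) : ℂ) * (t : ℂ) := by
    funext t
    change ((u (Complex.exp (ξ * t) • z) : ℝ) : ℂ) = _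
    rw [hu.hom _ z (Complex.exp_ne_zero _) hz, Complex.norm_exp, Real.log_exp]
    have : (ξ * (t : ℂ)).re = ξ.re * t := by simp
    rw [this]
    push_cast
    ring
  rw [h2] at h1
  have h3 : HasDerivAt (fun t : ℝ => ((u z : ℝ) : ℂ) + ((c * ξ.re : ℝ) : ℂ) * (t : ℂ))
      ((c * ξ.re : ℝ) : ℂ) 0 := by
    have := ((Complex.ofRealCLM.hasDerivAt (x := (0 : ℝ))).const_mul
      ((c * ξ.re : ℝ) : ℂ)).const_add ((u z : ℝ) : ℂ)
    simpa using this
  exact h1.unique h3

theorem l2_euler (h0 : T_W0) (hu : LH c u) {z : Fin N → ℂ} (hz : z ≠ 0) :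
    ∑ a, z a * wd a (cx u) z = c / 2 ∧ ∑ a, conj (z a) * wdb a (cx u) z = c / 2 := by
  have h1 := l2_ray hu hz 1
  have h2 := l2_ray hu hz Complex.I
  rw [h0] at h1 h2
  have e1 : ∑ i, (wd i (cx u) z * ((1 : ℂ) • z) i + wdb i (cx u) z * conj (((1 : ℂ) • z) i)) =
      (∑ a, z a * wd a (cx u) z) + ∑ a, conj (z a) * wdb a (cx u) z := by
    rw [← Finset.sum_add_distrib]
    refine Finset.sum_congr rfl fun i _ => ?_
    rw [one_smul]
    ring
  have e2 : ∑ i, (wd i (cx u) z * (Complex.I • z) i + wdb i (cx u) z * conj ((Complex.I • z) i)) =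
      Complex.I * (∑ a, z a * wd a (cx u) z) -
        Complex.I * ∑ a, conj (z a) * wdb a (cx u) z := by
    rw [Finset.mul_sum, Finset.mul_sum, ← Finset.sum_sub_distrib]
    refine Finset.sum_congr rfl fun i _ => ?_
    rw [Pi.smul_apply, smul_eq_mul, map_mul, Complex.conj_I]
    ring
  rw [e1, Complex.one_re, mul_one] at h1
  rw [e2, Complex.I_re, mul_zero, Complex.ofReal_zero, ← mul_sub] at h2
  have h3 := (mul_eq_zero.1 h2).resolve_left Complex.I_ne_zero
  constructor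
  · linear_combination (1 / 2) * h1 + (1 / 2) * h3
  · linear_combination (1 / 2) * h1 - (1 / 2) * h3

theorem l2_hom1 (h0 : T_W0) (hu : LH c u) {z : Fin N → ℂ} (hz : z ≠ 0) {l : ℂ} (hl : l ≠ 0)
    (a : Fin N) : wd a (cx u) (l • z) = l⁻¹ * wd a (cx u) z ∧
      wdb a (cx u) (l • z) = (conj l)⁻¹ * wdb a (cx u) z := by
  have hlz : l • z ≠ 0 := smul_ne_zero hl hz
  have hd : DifferentiableAt ℝ (cx u) (l • z) :=
    ((l2_smooth hu).contDiffAt (l2_nhds hlz)).differentiableAt (by simp)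
  obtain ⟨e1, e2⟩ := l2_chain h0 a (cx u) l z hd
  have h1 : (fun w => cx u (l • w)) =ᶠ[𝓝 z] fun w => cx u w + ((c * Real.log ‖l‖ : ℝ) : ℂ) := by
    filter_upwards [l2_nhds hz] with w hw
    change ((u (l • w) : ℝ) : ℂ) = ((u w : ℝ) : ℂ) + _
    rw [hu.hom l w hl hw]
    push_cast
    rfl
  obtain ⟨e3, e4⟩ := l2_congr h1 a
  have h2 : fderiv ℝ (fun w => cx u w + ((c * Real.log ‖l‖ : ℝ) : ℂ)) z =
      fderiv ℝ (cx u) z := fderiv_add_const _
  have e5 : wd a (fun w => cx u w + ((c * Real.log ‖l‖ : ℝ) : ℂ)) z = wd a (cx u) z := by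
    unfold wd
    rw [h2]
  have e6 : wdb a (fun w => cx u w + ((c * Real.log ‖l‖ : ℝ) : ℂ)) z = wdb a (cx u) z := by
    unfold wdb
    rw [h2]
  rw [e1, e5] at e3
  rw [e2, e6] at e4
  have hcl : conj l ≠ 0 := (map_ne_zero _).2 hl
  constructor
  · rw [← e3, inv_mul_cancel_left₀ hl]
  · rw [← e4, inv_mul_cancel_left₀ hcl]

theorem pf_L2 (h0 : T_W0) (h1 : T_W1) (h5 : T_W5) (h6 : T_W6) (h8 : T_W8) : T_L2 := by
  intro N c u hu z hz
  have hsm := l2_smooth hu
  have hopen : IsOpen ({0}ᶜ : Set (Fin N → ℂ)) := isOpen_compl_singleton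
  have hwd : ∀ (a : Fin N) (w : Fin N → ℂ), w ≠ 0 →
      DifferentiableAt ℝ (fun w => wd a (cx u) w) w ∧
      DifferentiableAt ℝ (fun w => wdb a (cx u) w) w := by
    intro a w hw
    obtain ⟨s1, s2⟩ := h6 (Fin N) a (cx u) {0}ᶜ hopen hsm
    exact ⟨(s1.contDiffAt (l2_nhds hw)).differentiableAt (by simp),
      (s2.contDiffAt (l2_nhds hw)).differentiableAt (by simp)⟩
  have h2le : (2 : WithTop ℕ∞) ≤ ∞ := WithTop.coe_le_coe.2 (le_top : (2 : ℕ∞) ≤ ⊤)
  have h2 : ContDiffAt ℝ 2 (cx u) z := (hsm.contDiffAt (l2_nhds hz)).of_le h2le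
  have h2r : ContDiffAt ℝ 2 u z := (hu.smooth.contDiffAt (l2_nhds hz)).of_le h2le
  have hKL : MKilL z (hessR u z) := by
    intro b
    have e1 : wdb b (fun w => ∑ a, w a * wd a (cx u) w) z = 0 := by
      have e2 : (fun w => ∑ a, w a * wd a (cx u) w) =ᶠ[𝓝 z] fun _ => (c / 2 : ℂ) := by
        filter_upwards [l2_nhds hz] with w hw
        exact (l2_euler h0 hu hw).1
      rw [(l2_congr e2 b).2]
      exact (l2_const b _ z).2
    have hc : ∀ a, DifferentiableAt ℝ (fun w : Fin N → ℂ => w a) z := fun a =>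
      (ContinuousLinearMap.proj (R := ℝ) (φ := fun _ : Fin N => ℂ) a).differentiableAt
    rw [l2_sum b (fun a w => w a * wd a (cx u) w) z
      (fun a => (hc a).mul (hwd a z hz).1)] at e1
    rw [← e1]
    refine Finset.sum_congr rfl fun a _ => ?_
    rw [(h1 (Fin N) b (fun w => w a) (fun w => wd a (cx u) w) z (hc a) (hwd a z hz).1).2.2.2.1,
      l2_coord, mul_zero, add_zero]
    congr 1
    exact (h5 (Fin N) a b (cx u) z h2).2.2
  refine ⟨(l2_euler h0 hu hz).1, (l2_euler h0 hu hz).2, hKL, ?_, ?_⟩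
  · intro a
    have hH := (h8 (Fin N) u z).2 h2r
    have e1 := congrArg conj (hKL a)
    rw [map_sum, map_zero] at e1
    rw [← e1]
    refine Finset.sum_congr rfl fun b _ => ?_
    rw [map_mul]
    congr 1
    have := congrFun (congrFun hH a) b
    rw [Matrix.conjTranspose_apply] at this
    exact this.symm
  · intro l hl
    have hlz : l • z ≠ 0 := smul_ne_zero hl hz
    refine ⟨fun a => (l2_hom1 h0 hu hz hl a).1, ?_⟩
    ext a b
    have hcl : conj l ≠ 0 := (map_ne_zero _).2 hl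
    have e1 := (l2_chain h0 a (fun w => wdb b (cx u) w) l z (hwd b _ hlz).2).1
    have e2 : (fun w => wdb b (cx u) (l • w)) =ᶠ[𝓝 z] fun w => (conj l)⁻¹ * wdb b (cx u) w := by
      filter_upwards [l2_nhds hz] with w hw
      exact (l2_hom1 h0 hu hw hl b).2
    have e3 := (h1 (Fin N) a (fun _ => (conj l)⁻¹) (fun w => wdb b (cx u) w) z
      (differentiableAt_const _) (hwd b z hz).2).2.2.1
    rw [(l2_const a _ z).1, mul_zero, add_zero] at e3
    have e4 := (l2_congr e2 a).1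
    rw [e3] at e4
    rw [e4] at e1
    change wd a (fun w => wdb b (cx u) w) (l • z) =
      ((‖l‖ ^ 2 : ℝ) : ℂ)⁻¹ * wd a (fun w => wdb b (cx u) w) z
    have hn : ((‖l‖ ^ 2 : ℝ) : ℂ) = l * conj l := by
      rw [Complex.mul_conj, Complex.normSq_eq_norm_sq]
    rw [hn]
    have e5 : wd a (fun w => wdb b (cx u) w) (l • z) =
        l⁻¹ * ((conj l)⁻¹ * wd a (fun w => wdb b (cx u) w) z) := by
      rw [e1, inv_mul_cancel_left₀ hl]
    rw [e5, mul_inv]
    ring

end

end Pool.Agent.H89.EQ
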