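import Pool.Agent.H92.EQ.TF1

/-!
A5: reality of the mixed determinants (row A5 of the board eqd_modules, MP_75a732_an).
-/

set_option autoImplicit false

namespace Pool.Agent.H89.EQ

open scoped BigOperators ComplexConjugate ContDiff ComplexOrder
open MeasureTheory Pool.Agent.H92.EQ

theorem a5_herm {κ : Type} [Fintype κ] [DecidableEq κ] (S : κ → κ → ℂ)
    (hS : ∀ c : κ → ℂ, 0 ≤ ∑ I, ∑ J, c I * conj (c J) * S I J) (I J : κ) :
    S J I = conj (S I J) := by
  have hB : ∀ x y : ℂ, ∑ I', ∑ J', ((Pi.single I x + Pi.single J y : κ → ℂ) I') *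
      conj ((Pi.single I x + Pi.single J y : κ → ℂ) J') * S I' J' =
      x * conj x * S I I + x * conj y * S I J + y * conj x * S J I + y * conj y * S J J := by
    intro x y
    simp only [Pi.add_apply, map_add, add_mul, mul_add, Finset.sum_add_distrib, Pi.single_apply,
      apply_ite (starRingEnd ℂ), map_zero, ite_mul, mul_ite, zero_mul, mul_zero,
      Finset.sum_ite_eq', Finset.mem_univ, if_true]
    ring
  have h1 := (Complex.nonneg_iff.1 (hB 1 1 ▸ hS _)).2
  have h2 := (Complex.nonneg_iff.1 (hB 1 Complex.I ▸ hS _)).2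
  have h3 := (Complex.nonneg_iff.1 (hB 1 0 ▸ hS _)).2
  have h4 := (Complex.nonneg_iff.1 (hB 0 1 ▸ hS _)).2
  simp at h1 h2 h3 h4
  apply Complex.ext
  · simp
    linarith
  · simp
    linarith

theorem a5_real {ι : Type} [Fintype ι] [DecidableEq ι] {p m : ℕ}
    (S : (Fin p → ι) → (Fin p → ι) → ℂ) (H : Fin m → Matrix ι ι ℂ)
    (hS : ∀ I J, S J I = conj (S I J)) (hH : ∀ j, (H j).IsHermitian) :
    conj (mixD S H) = mixD S H := by
  unfold mixD
  rw [map_sum]
  simp only [map_sum]
  rw [Finset.sum_comm]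
  refine Finset.sum_congr rfl fun e _ => Finset.sum_congr rfl fun e' _ => ?_
  rw [map_mul, map_mul, map_prod, ← hS]
  have h1 : ∀ j, conj (H j (e' (Sum.inr j)) (e (Sum.inr j))) =
      H j (e (Sum.inr j)) (e' (Sum.inr j)) := by
    intro j
    have := congrFun (congrFun (hH j) (e (Sum.inr j))) (e' (Sum.inr j))
    rw [Matrix.conjTranspose_apply] at this
    exact this
  rw [Finset.prod_congr rfl fun j _ => h1 j]
  congr 2
  have h2 : Equiv.Perm.sign (e'.trans e.symm) = Equiv.Perm.sign (e.trans e'.symm) := by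
    have h3 : e'.trans e.symm = (e.trans e'.symm)⁻¹ := by
      ext x
      rfl
    rw [h3, Equiv.Perm.sign_inv]
  rw [h2]
  simp

theorem pf_A5 : T_A5 := by
  intro ι _ _ p m S H hS hH
  have h1 : ∀ I J, S J I = conj (S I J) := fun I J => a5_herm S hS I J
  exact ⟨h1, Complex.conj_eq_iff_im.1 (a5_real S H h1 hH)⟩

end Pool.Agent.H89.EQ
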