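import Pool.Agent.H92.EQ.TF2

/-!
P4: comparison with the Fubini-Study form (row P4 of the board eqd_modules, MP_75a732_an).
-/

set_option autoImplicit false

namespace Pool.Agent.H89.EQ

open scoped BigOperators ComplexConjugate ContDiff ComplexOrder Topology
open MeasureTheory Pool.Agent.H92.EQ Filter

theorem p4_rad {ι : Type} [Fintype ι] [DecidableEq ι] (z : ι → ℂ) : (Rad z).PosSemidef := by
  have h1 : Rad z = ((1 / (4 * nsq z ^ 2) : ℝ) : ℂ) •
      Matrix.vecMulVec (fun a => conj (z a)) (star (fun a => conj (z a))) := by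
    ext a b
    rw [Matrix.smul_apply, Matrix.vecMulVec_apply]
    change conj (z a) * z b / (4 * ((nsq z : ℝ) : ℂ) ^ 2) =
      ((1 / (4 * nsq z ^ 2) : ℝ) : ℂ) * (conj (z a) * star (conj (z b)))
    rw [Complex.star_def, Complex.conj_conj]
    push_cast
    ring
  rw [h1]
  refine (Matrix.posSemidef_vecMulVec_self_star _).smul ?_
  have : (0 : ℝ) ≤ 1 / (4 * nsq z ^ 2) := by positivity
  exact_mod_cast this

theorem p4_scale {ι : Type} [Fintype ι] [DecidableEq ι] {p m : ℕ}
    (S : (Fin p → ι) → (Fin p → ι) → ℂ) (E : Fin m → Matrix ι ι ℂ) (c : Fin m → ℂ) :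
    mixD S (fun j => c j • E j) = (∏ j, c j) * mixD S E := by
  unfold mixD
  rw [Finset.mul_sum]
  refine Finset.sum_congr rfl fun e _ => ?_
  rw [Finset.mul_sum]
  refine Finset.sum_congr rfl fun e' _ => ?_
  have h1 : ∏ j, (c j • E j) (e (Sum.inr j)) (e' (Sum.inr j)) =
      (∏ j, c j) * ∏ j, E j (e (Sum.inr j)) (e' (Sum.inr j)) := by
    rw [← Finset.prod_mul_distrib]
    rfl
  rw [h1]
  ring

theorem pf_P4 (h6 : T_L6) (h15 : T_A15) : T_P4 := by
  intro N q u hu
  choose C hC0 hC using fun j => (h6 N).2.1 (u j) (hu j)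
  refine ⟨∏ j, C j, Finset.prod_pos fun j _ => hC0 j, ?_⟩
  intro p S hN hS z hz
  have hP : Psd (S z) := hS.cp.psd z hz
  have h1 := h15 (Fin N) p (q + 1) (S z)
    (Fin.snoc (α := fun _ => Matrix (Fin N) (Fin N) ℂ) (fun j => hessR (u j) z) (Rad z))
    (fun j => (Fin.snoc (α := fun _ => ℂ) (fun j => (C j : ℂ)) 1 : Fin (q + 1) → ℂ) j •
      (Fin.snoc (α := fun _ => Matrix (Fin N) (Fin N) ℂ) (fun _ => hessR ell z) (Rad z) :
        Fin (q + 1) → Matrix (Fin N) (Fin N) ℂ) j) hP (by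
      intro j
      refine Fin.lastCases ?_ (fun j => ?_) j
      · rw [Fin.snoc_last]
        exact p4_rad z
      · rw [Fin.snoc_castSucc]
        exact (hu j).psh z hz) (by
      intro j
      refine Fin.lastCases ?_ (fun j => ?_) j
      · rw [Fin.snoc_last, Fin.snoc_last, Fin.snoc_last, one_smul, sub_self]
        exact Matrix.PosSemidef.zero
      · rw [Fin.snoc_castSucc, Fin.snoc_castSucc, Fin.snoc_castSucc]
        exact hC j z hz)
  rw [p4_scale] at h1
  have h2 : (∏ j, (Fin.snoc (α := fun _ => ℂ) (fun j => (C j : ℂ)) 1 : Fin (q + 1) → ℂ) j) =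
      ((∏ j, C j : ℝ) : ℂ) := by
    rw [Fin.prod_univ_castSucc, Fin.snoc_last, mul_one]
    simp only [Fin.snoc_castSucc]
    push_cast
    rfl
  rw [h2] at h1
  have h3 := (Complex.le_def.1 h1).1
  rw [Complex.re_ofReal_mul] at h3
  exact h3

end Pool.Agent.H89.EQ
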