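import Pool.Agent.H89.EQ.TD2

/-!
TD: the Laplacian of the pairing (row TD of the board eqd_modules, MP_75a732_an).
-/

set_option autoImplicit false

namespace Pool.Agent.H89.EQ

open scoped BigOperators ComplexConjugate ContDiff ComplexOrder Topology
open MeasureTheory Pool.Agent.H92.EQ Filter

theorem td_lap0 {f : ℂ → ℝ} {t : ℂ} (ht : t ∉ tsupport f) : lapl f t = 0 := by
  have h1 : f =ᶠ[𝓝 t] fun _ => 0 := notMem_tsupport_iff_eventuallyEq.1 ht
  have h2 : ∀ v : ℂ, (fun s => fderiv ℝ f s v) =ᶠ[𝓝 t] fun _ => 0 := by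
    intro v
    have h3 := h1.fderiv (𝕜 := ℝ)
    filter_upwards [h3] with s hs
    rw [hs]
    have : fderiv ℝ (fun _ : ℂ => (0 : ℝ)) s = 0 := (hasFDerivAt_const 0 s).fderiv
    rw [this]
    rfl
  have h4 : ∀ v : ℂ, fderiv ℝ (fun s => fderiv ℝ f s v) t = 0 := by
    intro v
    rw [(h2 v).fderiv_eq]
    exact (hasFDerivAt_const 0 t).fderiv
  unfold lapl
  rw [h4, h4]
  simp

theorem td_lapc {f : ℂ → ℝ} (hf : ContDiff ℝ ∞ f) : Continuous (lapl f) := by
  have hf1 : ∀ v : ℂ, ContDiff ℝ ∞ (fun s => fderiv ℝ f s v) := fun v =>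
    (hf.fderiv_right (m := ∞) (by simp)).clm_apply contDiff_const
  have hf2 : ∀ v : ℂ, Continuous (fun t => fderiv ℝ (fun s => fderiv ℝ f s v) t v) := fun v =>
    (((hf1 v).fderiv_right (m := ∞) (by simp)).clm_apply contDiff_const).continuous
  exact continuous_const.mul ((hf2 1).add (hf2 Complex.I))

theorem td_ctc {N : ℕ} (t : ℂ) : Continuous (fun x : Fin N → ℂ => ct t x) := by
  refine continuous_pi fun i => ?_
  refine Fin.cases ?_ (fun i => ?_) i
  · exact continuous_const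
  · exact continuous_apply i

theorem td_ctm {N : ℕ} {V : Set ℂ} {t : ℂ} (ht : t ∈ V) {x : Fin N → ℂ} (hx : x ≠ 0) :
    ct t x ∈ WV N V := ⟨ht, by rw [td_tlct]; exact hx⟩

theorem td_ell0 {N : ℕ} : ell (0 : Fin N → ℂ) ∉ Set.Icc (1 : ℝ) 3 := by
  intro hs
  unfold ell at hs
  have h2 : nsq (0 : Fin N → ℂ) = 0 := by simp [nsq]
  rw [h2, Real.log_zero, mul_zero] at hs
  have := hs.1
  linarith

theorem td_hessr (h7 : T_W7) (h9 : T_W9) {N : ℕ} {V : Set ℂ} (hV : IsOpen V)
    {z : Fin (N + 1) → ℂ} (hz : z ∈ WV N V) :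
    hessR (fun w => (1 / 2) * ellT w ^ 2) z = (ellT z : ℂ) • hessR ellT z + RadT z := by
  have h2le : (2 : WithTop ℕ∞) ≤ ∞ := WithTop.coe_le_coe.2 (le_top : (2 : ℕ∞) ≤ ⊤)
  have hell := td_LHT h9 (N := N) V
  have hellz : ContDiffAt ℝ 2 (ellT : (Fin (N + 1) → ℂ) → ℝ) z :=
    (hell.smooth.contDiffAt ((td_open hV).mem_nhds hz)).of_le h2le
  have hχ : ContDiff ℝ 2 (fun s : ℝ => (1 / 2) * s ^ 2) := by fun_prop
  have h1 := (h7 (Fin (N + 1)) ellT ellT (fun s : ℝ => (1 / 2) * s ^ 2) z hellz hellz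
    hχ.contDiffAt).2.2.1
  have hd : deriv (fun s : ℝ => (1 / 2) * s ^ 2) = fun s => s := by
    funext s
    have h2 := (hasDerivAt_pow 2 s).const_mul (1 / 2 : ℝ)
    rw [h2.deriv]
    push_cast
    ring
  rw [hd] at h1
  have hd2 : deriv (fun s : ℝ => s) (ellT z) = 1 := (hasDerivAt_id (ellT z)).deriv
  rw [hd2] at h1
  rw [h1, Complex.ofReal_one, one_smul]
  rfl

theorem pf_TD (hA1 : T_A1) (hA7 : T_A7) (hA11 : T_A11) (hA16 : T_A16) (h3 : T_S3) (h4 : T_S4)
    (h5 : T_S5) (h6 : T_W6) (h7 : T_W7) (h8 : T_W8) (h9 : T_W9) (hTA : T_TA) (hTC : T_TC) :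
    T_TD := by
  intro N p q V S v0 v c hN hV hS hv0 hv f hf
  have hN0 : 0 < N := by omega
  have hU := td_open (N := N) hV
  have hell := td_LHT h9 (N := N) V
  have hK := tdK_compact (N := N) hf.cpt
  have hKU := tdK_sub (N := N) hf.sub
  set a : (Fin (N + 1) → ℂ) → ℝ := fun w => f (w 0) * tdχ (ellT w) with ha
  have ha0 : ∀ z, z ∉ tdK N f → a z = 0 := by
    intro z hz
    change f (z 0) * tdχ (ellT z) = 0
    by_cases h0 : z 0 ∈ tsupport f
    · rw [(tdχ_zero (tdK_not hz h0)).1, mul_zero]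
    · rw [image_eq_zero_of_notMem_tsupport h0, zero_mul]
  have haU : ContDiffOn ℝ ∞ a (WV N V) :=
    (hf.smooth.comp (ContinuousLinearMap.proj (R := ℝ)
      (φ := fun _ : Fin (N + 1) => ℂ) 0).contDiff).contDiffOn.mul
      (tdχ_smooth.comp_contDiffOn hell.smooth)
  have has : ContDiff ℝ ∞ a := by
    rw [contDiff_iff_contDiffAt]
    intro z
    by_cases hz : z ∈ tdK N f
    · exact haU.contDiffAt (hU.mem_nhds (hKU hz))
    · have : a =ᶠ[𝓝 z] fun _ => 0 := by
        filter_upwards [hK.isClosed.isOpen_compl.mem_nhds hz] with w hw using ha0 w hw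
      exact contDiffAt_const.congr_of_eventuallyEq this
  have hca0 : ∀ z, z ∉ tdK N f → cx a z = 0 := by
    intro z hz
    change ((a z : ℝ) : ℂ) = 0
    rw [ha0 z hz, Complex.ofReal_zero]
  have hcpt : HasCompactSupport (cx a) := HasCompactSupport.intro hK hca0
  have htsup : tsupport (cx a) ⊆ WV N V := by
    refine (closure_minimal ?_ hK.isClosed).trans hKU
    intro z hz
    by_contra h
    exact hz (hca0 z h)
  set vr : Fin (q + 1) → (Fin (N + 1) → ℂ) → ℂ :=
    Fin.snoc (α := fun _ => (Fin (N + 1) → ℂ) → ℂ) (fun j => cx (v j))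
      (cx fun w => (1 / 2) * ellT w ^ 2) with hvr
  have hS3 := h3 (Fin (N + 1)) p (q + 1) (WV N V) S (cx a) (cx v0) vr hU hS.cf
    (Complex.ofRealCLM.contDiff.comp has) hcpt htsup
    (Complex.ofRealCLM.contDiff.comp_contDiffOn hv0.smooth) (by
      intro j
      rw [hvr]
      refine Fin.lastCases ?_ (fun j => ?_) j
      · rw [Fin.snoc_last]
        exact Complex.ofRealCLM.contDiff.comp_contDiffOn
          (contDiffOn_const.mul (hell.smooth.pow 2))
      · rw [Fin.snoc_castSucc]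
        exact Complex.ofRealCLM.contDiff.comp_contDiffOn (hv j).smooth)
  have hlist : ∀ X : Matrix (Fin (N + 1)) (Fin (N + 1)) ℂ, ∀ z ∈ WV N V,
      (Fin.cons (α := fun _ => Matrix (Fin (N + 1)) (Fin (N + 1)) ℂ) X
        (fun j => hess (vr j) z)) = tdH X (fun j => hessR (v j) z)
        ((ellT z : ℂ) • hessR ellT z + RadT z) := by
    intro X z hz
    unfold tdH
    congr 1
    funext j
    rw [hvr]
    refine Fin.lastCases ?_ (fun j => ?_) j
    · rw [Fin.snoc_last, Fin.snoc_last]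
      exact td_hessr h7 h9 hV hz
    · rw [Fin.snoc_castSucc, Fin.snoc_castSucc]
      rfl
  -- the left side
  obtain ⟨g1, hg1⟩ : ∃ g1 : (Fin (N + 1) → ℂ) → ℝ, ∀ z, g1 z =
    a z * QT S (Fin.cons (α := fun _ => (Fin (N + 1) → ℂ) → ℝ) v0 v) z := ⟨_, fun _ => rfl⟩
  have hL : ∀ z, cx a z * mixD (S z) (Fin.cons
      (α := fun _ => Matrix (Fin (N + 1)) (Fin (N + 1)) ℂ) (hess (cx v0) z)
        (fun j => hess (vr j) z)) = ((g1 z : ℝ) : ℂ) := by
    intro z
    rw [hg1]
    by_cases hz : z ∈ tdK N f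
    · rw [hlist _ z (hKU hz)]
      have := td_left hA1 hA7 h9 hTC hV hS hv0 hv (hKU hz)
      change cx a z * mixD (S z) (tdH (hessR v0 z) _ _) = _
      rw [this]
      push_cast
      rfl
    · rw [hca0 z hz, ha0 z hz, zero_mul, zero_mul, Complex.ofReal_zero]
  -- the right side
  obtain ⟨Qr, hQr⟩ : ∃ Qr : (Fin (N + 1) → ℂ) → ℝ, ∀ z, Qr z =
    (mixD (S z) (tdH (Matrix.single 0 0 1) (fun j => hessR (v j) z) (RadT z))).re :=
    ⟨_, fun _ => rfl⟩
  have hQr1 : ∀ t ∈ V, ∀ x : Fin N → ℂ, x ≠ 0 →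
      Qr (ct t x) = Q (res S t) (fun j x => v j (ct t x)) x := by
    intro t ht x hx
    rw [hQr, td_res hA11 h5 h9 hTA hV hN hS hv ht hx, Complex.ofReal_re]
  have hQr2 : ∀ z ∈ WV N V, ((Qr z : ℝ) : ℂ) =
      mixD (S z) (tdH (Matrix.single 0 0 1) (fun j => hessR (v j) z) (RadT z)) := by
    intro z hz
    have h := td_res hA11 h5 h9 hTA hV hN hS hv hz.1 hz.2
    rw [← hQr1 (z 0) hz.1 (tl z) hz.2, td_ctz] at h
    exact h.symm
  obtain ⟨g2, hg2⟩ : ∃ g2 : (Fin (N + 1) → ℂ) → ℝ, ∀ z, g2 z =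
    v0 z * (tdχ (ellT z) * lapl f (z 0) * Qr z) := ⟨_, fun _ => rfl⟩
  obtain ⟨g3, hg3⟩ : ∃ g3 : (Fin (N + 1) → ℂ) → ℝ, ∀ z, g3 z =
    v0 z * (f (z 0) * tdθ (ellT z) *
      QT S (Fin.cons (α := fun _ => (Fin (N + 1) → ℂ) → ℝ) ellT v) z) := ⟨_, fun _ => rfl⟩
  have hg20 : ∀ z, z ∉ tdK N f → g2 z = 0 := by
    intro z hz
    rw [hg2]
    by_cases h0 : z 0 ∈ tsupport f
    · rw [(tdχ_zero (tdK_not hz h0)).1, zero_mul, zero_mul, mul_zero]
    · rw [td_lap0 h0, mul_zero, zero_mul, mul_zero]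
  have hg30 : ∀ z, z ∉ tdK N f → g3 z = 0 := by
    intro z hz
    rw [hg3]
    by_cases h0 : z 0 ∈ tsupport f
    · rw [tdθ_zero (tdK_not hz h0), mul_zero, zero_mul, mul_zero]
    · rw [image_eq_zero_of_notMem_tsupport h0, zero_mul, zero_mul, mul_zero]
  have hR : ∀ z, cx v0 z * mixD (S z) (Fin.cons
      (α := fun _ => Matrix (Fin (N + 1)) (Fin (N + 1)) ℂ) (hess (cx a) z)
        (fun j => hess (vr j) z)) = ((g2 z + g3 z : ℝ) : ℂ) := by
    intro z
    by_cases hz : z ∈ tdK N f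
    · rw [hlist _ z (hKU hz)]
      have := td_right hA1 hA16 h7 h8 h9 hTC hV hS hv f hf.smooth (hKU hz)
      change cx v0 z * mixD (S z) (tdH (hessR a z) _ _) = _
      rw [this, ← hQr2 z (hKU hz), hg2, hg3]
      change ((v0 z : ℝ) : ℂ) * _ = _
      push_cast
      ring
    · rw [hg20 z hz, hg30 z hz, add_zero, Complex.ofReal_zero]
      have e1 : cx a =ᶠ[𝓝 z] fun _ => 0 := by
        filter_upwards [hK.isClosed.isOpen_compl.mem_nhds hz] with w hw using hca0 w hw
      have e2 : hess (cx a) z = (0 : ℂ) • (0 : Matrix (Fin (N + 1)) (Fin (N + 1)) ℂ) := by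
        rw [zero_smul]
        ext i j
        change wd i (fun w => wdb j (cx a) w) z = 0
        have e3 : (fun w => wdb j (cx a) w) =ᶠ[𝓝 z] fun _ => 0 := by
          filter_upwards [e1.eventually_nhds] with w hw
          have hw' : cx a =ᶠ[𝓝 w] fun _ => 0 := hw
          unfold wdb
          rw [hw'.fderiv_eq]
          have : fderiv ℝ (fun _ : Fin (N + 1) → ℂ => (0 : ℂ)) w = 0 :=
            (hasFDerivAt_const 0 w).fderiv
          rw [this]
          simp
        unfold wd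
        rw [e3.fderiv_eq]
        have : fderiv ℝ (fun _ : Fin (N + 1) → ℂ => (0 : ℂ)) z = 0 :=
          (hasFDerivAt_const 0 z).fderiv
        rw [this]
        simp
      have e4 := (hA1 (Fin (N + 1)) p (q + 1 + 1) (S z) (S z)
        (Fin.cons (α := fun _ => Matrix (Fin (N + 1)) (Fin (N + 1)) ℂ) 0
          (fun j => hess (vr j) z)) 0 0 0 0).2.1
      rw [Fin.update_cons_zero, zero_mul] at e4
      rw [e2, e4, mul_zero]
  -- the integrals
  have hint : ∫ z, g1 z = ∫ z, (g2 z + g3 z) := by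
    simp only [hL, hR] at hS3
    have k1 : ∫ z, ((g1 z : ℝ) : ℂ) = ((∫ z, g1 z : ℝ) : ℂ) := integral_complex_ofReal
    have k2 : ∫ z, (((g2 z + g3 z : ℝ)) : ℂ) = ((∫ z, (g2 z + g3 z) : ℝ) : ℂ) :=
      integral_complex_ofReal
    exact Complex.ofReal_injective (k1.symm.trans (hS3.trans k2))
  have hv0c : ContinuousOn v0 (WV N V) := hv0.smooth.continuousOn
  have hellc : ContinuousOn (ellT : (Fin (N + 1) → ℂ) → ℝ) (WV N V) := hell.smooth.continuousOn
  have hQ1 := td_QTc hTC hV hS hv0 hv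
  have hQ3 := td_QTc hTC hV hS hell hv
  have hQrc : ContinuousOn Qr (WV N V) := by
    have e1 : ContinuousOn (fun z => mixD (S z) (tdH (Matrix.single 0 0 1)
        (fun j => hessR (v j) z) (RadT z))) (WV N V) := by
      refine td_mixc (fun I J => (hS.cf.smooth I J).continuousOn) ?_
      refine tdH_cases ?_ ?_ ?_
      · intro i j
        simp only [tdH_0]
        exact continuousOn_const
      · intro i j
        simp only [tdH_last]
        have e2 : ContDiffOn ℝ ∞ (cx (ellT : (Fin (N + 1) → ℂ) → ℝ)) (WV N V) :=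
          Complex.ofRealCLM.contDiff.comp_contDiffOn hell.smooth
        exact ((h6 _ i _ _ hU e2).1.continuousOn).mul ((h6 _ j _ _ hU e2).2.continuousOn)
      · intro j i i'
        simp only [tdH_mid]
        exact td_hessc h6 hU (hv j).smooth i i'
    have e3 : Qr = fun z => (mixD (S z) (tdH (Matrix.single 0 0 1)
        (fun j => hessR (v j) z) (RadT z))).re := funext hQr
    rw [e3]
    exact Complex.continuous_re.comp_continuousOn e1
  have hz0 : Continuous (fun z : Fin (N + 1) → ℂ => z 0) := continuous_apply 0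
  have i1 : Integrable g1 := by
    refine td_integrable hf.cpt g1 ?_ (fun z hz => by rw [hg1, ha0 z hz, zero_mul])
    have : g1 = fun z => a z * QT S (Fin.cons (α := fun _ => (Fin (N + 1) → ℂ) → ℝ) v0 v) z :=
      funext hg1
    rw [this]
    exact (has.continuous.continuousOn).mul (hQ1.1.mono hKU)
  have i2 : Integrable g2 := by
    refine td_integrable hf.cpt g2 ?_ hg20
    have : g2 = fun z => v0 z * (tdχ (ellT z) * lapl f (z 0) * Qr z) := funext hg2
    rw [this]
    exact (hv0c.mul (((tdχ_smooth.continuous.comp_continuousOn hellc).mul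
      ((td_lapc hf.smooth).comp hz0).continuousOn).mul hQrc)).mono hKU
  have i3 : Integrable g3 := by
    refine td_integrable hf.cpt g3 ?_ hg30
    have : g3 = fun z => v0 z * (f (z 0) * tdθ (ellT z) *
      QT S (Fin.cons (α := fun _ => (Fin (N + 1) → ℂ) → ℝ) ellT v) z) := funext hg3
    rw [this]
    exact (hv0c.mul ((((hf.smooth.continuous.comp hz0).continuousOn).mul
      (tdθ_cont.comp_continuousOn hellc)).mul hQ3.1)).mono hKU
  rw [td_fubini g1 i1, td_fubini (fun z => g2 z + g3 z) (i2.add i3)] at hint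
  -- the inner integrals
  have hcomp : ∀ (t : ℂ), t ∈ V → ∀ g : (Fin (N + 1) → ℂ) → ℝ, ContinuousOn g (WV N V) →
      ContinuousOn (fun x : Fin N → ℂ => g (ct t x)) {0}ᶜ := fun t ht g hg =>
    hg.comp (td_ctc t).continuousOn (fun x hx => td_ctm ht hx)
  have hnr : ∀ r : ℝ, 0 < r → ((r : ℝ) : ℂ) ≠ 0 ∧ ‖((r : ℝ) : ℂ)‖ = r := fun r hr =>
    ⟨by exact_mod_cast hr.ne', by rw [Complex.norm_real, Real.norm_eq_abs, abs_of_pos hr]⟩
  have hQhom : ∀ (w : (Fin (N + 1) → ℂ) → ℝ), (∀ z ∈ WV N V, ∀ l : ℂ, l ≠ 0 →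
      QT S (Fin.cons (α := fun _ => (Fin (N + 1) → ℂ) → ℝ) w v) (ct (z 0) (l • tl z)) =
      (‖l‖ ^ (2 * N))⁻¹ * QT S (Fin.cons (α := fun _ => (Fin (N + 1) → ℂ) → ℝ) w v) z) →
      ∀ t ∈ V, ∀ (r : ℝ) (x : Fin N → ℂ), 0 < r → x ≠ 0 →
      QT S (Fin.cons (α := fun _ => (Fin (N + 1) → ℂ) → ℝ) w v) (ct t ((r : ℂ) • x)) =
      (r ^ (2 * N))⁻¹ * QT S (Fin.cons (α := fun _ => (Fin (N + 1) → ℂ) → ℝ) w v)
        (ct t x) := by
    intro w hw t ht r x hr hx
    have := hw (ct t x) (td_ctm ht hx) (r : ℂ) (hnr r hr).1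
    rw [td_tlct, td_ct0, (hnr r hr).2] at this
    exact this
  have hvhom : ∀ t ∈ V, ∀ (r : ℝ) (x : Fin N → ℂ), 0 < r → x ≠ 0 →
      v0 (ct t ((r : ℂ) • x)) = v0 (ct t x) := by
    intro t ht r x hr hx
    have := hv0.hom (r : ℂ) (ct t x) (hnr r hr).1 (td_ctm ht hx)
    rw [td_tlct, td_ct0, zero_mul, add_zero] at this
    exact this
  have in1 : ∀ t, ∫ x : Fin N → ℂ, g1 (ct t x) =
      f t * mT S (Fin.cons (α := fun _ => (Fin (N + 1) → ℂ) → ℝ) v0 v) t := by
    intro t
    by_cases ht : t ∈ V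
    · have e1 := (td_S4 h4 hN0 (fun x => QT S
        (Fin.cons (α := fun _ => (Fin (N + 1) → ℂ) → ℝ) v0 v) (ct t x))
        (hcomp t ht _ hQ1.1) (hQhom v0 hQ1.2 t ht) tdχ tdχ_smooth.continuous tdχ_cpt).2
      rw [tdχ_int, one_mul] at e1
      have e2 : ∀ x : Fin N → ℂ, g1 (ct t x) = f t * (QT S
        (Fin.cons (α := fun _ => (Fin (N + 1) → ℂ) → ℝ) v0 v) (ct t x) * tdχ (ell x)) := by
        intro x
        rw [hg1]
        change f (ct t x 0) * tdχ (ellT (ct t x)) * _ = _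
        have : ellT (ct t x) = ell x := by
          unfold ellT
          rw [td_tlct]
        rw [this, td_ct0]
        ring
      simp only [e2]
      rw [integral_const_mul, e1]
      rfl
    · have hft : f t = 0 := image_eq_zero_of_notMem_tsupport fun h => ht (hf.sub h)
      have e2 : ∀ x : Fin N → ℂ, g1 (ct t x) = 0 := by
        intro x
        rw [hg1]
        change f (ct t x 0) * tdχ (ellT (ct t x)) * _ = _
        rw [td_ct0, hft, zero_mul, zero_mul]
      simp only [e2, hft, integral_zero, zero_mul]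
  have in2 : ∀ t, ∫ x : Fin N → ℂ, (g2 (ct t x) + g3 (ct t x)) =
      lapl f t * pair (fun x => v0 (ct t x)) (res S t) (fun j x => v j (ct t x)) := by
    intro t
    by_cases ht : t ∈ V
    · obtain ⟨r1, r2⟩ := hTA N p V t hV ht
      obtain ⟨s1, s2, -⟩ := h5 N p q (res S t) (fun j x => v j (ct t x)) c hN (r1 S hS)
        (fun j => (r2 (c j) (v j) (hv j)).1)
      obtain ⟨k1, e1⟩ := td_S4 h4 hN0 (fun x => v0 (ct t x) *
          Q (res S t) (fun j x => v j (ct t x)) x)
        ((hcomp t ht _ hv0c).mul s1) (by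
          intro r x hr hx
          have h := s2 (r : ℂ) x (hnr r hr).1 hx
          rw [(hnr r hr).2] at h
          rw [hvhom t ht r x hr hx, h]
          ring) tdχ tdχ_smooth.continuous tdχ_cpt
      obtain ⟨k2, e2⟩ := td_S4 h4 hN0 (fun x => v0 (ct t x) * QT S
          (Fin.cons (α := fun _ => (Fin (N + 1) → ℂ) → ℝ) ellT v) (ct t x))
        ((hcomp t ht _ hv0c).mul (hcomp t ht _ hQ3.1)) (by
          intro r x hr hx
          rw [hvhom t ht r x hr hx, hQhom ellT hQ3.2 t ht r x hr hx]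
          ring) tdθ tdθ_cont tdθ_cpt
      rw [tdχ_int, one_mul] at e1
      rw [tdθ_int, zero_mul] at e2
      have hel : ∀ x : Fin N → ℂ, ellT (ct t x) = ell x := by
        intro x
        unfold ellT
        rw [td_tlct]
      have e3 : ∀ x : Fin N → ℂ, g2 (ct t x) = lapl f t * (v0 (ct t x) *
          Q (res S t) (fun j x => v j (ct t x)) x * tdχ (ell x)) := by
        intro x
        rw [hg2, hel, td_ct0]
        by_cases hx : x = 0
        · rw [hx, (tdχ_zero td_ell0).1]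
          ring
        · rw [hQr1 t ht x hx]
          ring
      have e4 : ∀ x : Fin N → ℂ, g3 (ct t x) = f t * (v0 (ct t x) * QT S
          (Fin.cons (α := fun _ => (Fin (N + 1) → ℂ) → ℝ) ellT v) (ct t x) * tdθ (ell x)) := by
        intro x
        rw [hg3, hel, td_ct0]
        ring
      simp only [e3, e4]
      rw [integral_add (k1.const_mul _) (k2.const_mul _), integral_const_mul,
        integral_const_mul, e1, e2, mul_zero, add_zero]
      rfl
    · have hft : f t = 0 := image_eq_zero_of_notMem_tsupport fun h => ht (hf.sub h)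
      have hlt : lapl f t = 0 := td_lap0 fun h => ht (hf.sub h)
      have e2 : ∀ x : Fin N → ℂ, g2 (ct t x) + g3 (ct t x) = 0 := by
        intro x
        rw [hg2, hg3, td_ct0, hft, hlt]
        ring
      simp only [e2, hlt, integral_zero, zero_mul]
  simp only [in1, in2] at hint
  exact hint.symm

end Pool.Agent.H89.EQ
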