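import Pool.Agent.H92.EQ.TT
import Pool.Agent.H68.EQ.P1

/-!
TD0: auxiliary facts for the row TD of the board eqd_modules (MP_75a732_an).
-/

set_option autoImplicit false

namespace Pool.Agent.H89.EQ

open scoped BigOperators ComplexConjugate ContDiff ComplexOrder Topology
open MeasureTheory Pool.Agent.H92.EQ Filter

/-! ### Fubini -/

theorem td_symm {N : ℕ} (y : ℂ × (Fin N → ℂ)) :
    (MeasurableEquiv.piFinSuccAbove (fun _ : Fin (N + 1) => ℂ) 0).symm y = ct y.1 y.2 := by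
  unfold ct
  rw [← Fin.insertNth_zero']
  rfl

theorem td_fubini {N : ℕ} (g : (Fin (N + 1) → ℂ) → ℝ) (hg : Integrable g) :
    ∫ z, g z = ∫ t : ℂ, ∫ x : Fin N → ℂ, g (ct t x) := by
  have e := (MeasureTheory.volume_preserving_piFinSuccAbove (fun _ : Fin (N + 1) => ℂ) 0).symm _
  have h1 := e.integral_comp' g
  have h2 : Integrable (fun y : ℂ × (Fin N → ℂ) => g (ct y.1 y.2)) (volume.prod volume) := by
    have h3 := (e.integrable_comp_emb (MeasurableEquiv.measurableEmbedding _) (g := g)).2 hg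
    have h4 : g ∘ (MeasurableEquiv.piFinSuccAbove (fun _ : Fin (N + 1) => ℂ) 0).symm =
        fun y : ℂ × (Fin N → ℂ) => g (ct y.1 y.2) := by
      funext y
      rw [Function.comp_apply, td_symm]
    rw [h4] at h3
    exact h3
  rw [← h1]
  have h5 : (fun y => g ((MeasurableEquiv.piFinSuccAbove (fun _ : Fin (N + 1) => ℂ) 0).symm y)) =
      fun y : ℂ × (Fin N → ℂ) => g (ct y.1 y.2) := by
    funext y
    rw [td_symm]
  rw [h5]
  exact integral_prod _ h2

/-! ### Coordinates -/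

theorem td_ct0 {N : ℕ} (t : ℂ) (x : Fin N → ℂ) : ct t x 0 = t := rfl

theorem td_tlct {N : ℕ} (t : ℂ) (x : Fin N → ℂ) : tl (ct t x) = x := by
  funext i
  rfl

theorem td_ctz {N : ℕ} (z : Fin (N + 1) → ℂ) : ct (z 0) (tl z) = z := by
  funext i
  refine Fin.cases rfl (fun i => rfl) i

/-- the last coordinates as a continuous linear map -/
noncomputable def tlL (N : ℕ) : (Fin (N + 1) → ℂ) →L[ℝ] (Fin N → ℂ) :=
  ContinuousLinearMap.pi fun i => ContinuousLinearMap.proj (R := ℝ) i.succ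

theorem td_tlL {N : ℕ} (z : Fin (N + 1) → ℂ) : tlL N z = tl z := rfl

theorem td_tlc (N : ℕ) : Continuous (fun z : Fin (N + 1) → ℂ => tl z) := (tlL N).continuous

theorem td_open {N : ℕ} {V : Set ℂ} (hV : IsOpen V) : IsOpen (WV N V) :=
  (hV.preimage (continuous_apply 0)).inter
    (isOpen_compl_singleton.preimage (td_tlc N))

theorem td_tlsingle {N : ℕ} (i : Fin N) (c : ℂ) :
    tl (Pi.single (i.succ : Fin (N + 1)) c) = Pi.single i c := by
  funext j
  change (Pi.single (i.succ : Fin (N + 1)) c : Fin (N + 1) → ℂ) j.succ = _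
  by_cases h : j = i
  · subst h
    simp
  · rw [Pi.single_eq_of_ne h, Pi.single_eq_of_ne (fun k => h (Fin.succ_injective _ k))]

theorem td_tlsingle0 {N : ℕ} (c : ℂ) : tl (Pi.single (0 : Fin (N + 1)) c) = 0 := by
  funext j
  change (Pi.single (0 : Fin (N + 1)) c : Fin (N + 1) → ℂ) j.succ = _
  rw [Pi.single_eq_of_ne (Fin.succ_ne_zero j)]
  rfl

theorem td_wdtl {N : ℕ} (g : (Fin N → ℂ) → ℂ) (z : Fin (N + 1) → ℂ)
    (hg : DifferentiableAt ℝ g (tl z)) :
    (∀ i : Fin N, wd i.succ (fun w => g (tl w)) z = wd i g (tl z)) ∧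
    ∀ i : Fin N, wdb i.succ (fun w => g (tl w)) z = wdb i g (tl z) := by
  have h : HasFDerivAt (fun w : Fin (N + 1) → ℂ => g (tl w))
      ((fderiv ℝ g (tl z)).comp (tlL N)) z :=
    hg.hasFDerivAt.comp z (tlL N).hasFDerivAt
  constructor <;> intro i
  · unfold wd
    rw [h.fderiv, ContinuousLinearMap.comp_apply, ContinuousLinearMap.comp_apply, td_tlL, td_tlL,
      td_tlsingle, td_tlsingle]
  · unfold wdb
    rw [h.fderiv, ContinuousLinearMap.comp_apply, ContinuousLinearMap.comp_apply, td_tlL, td_tlL,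
      td_tlsingle, td_tlsingle]

/-! ### Functions of `t` -/

theorem td_fd0 {N : ℕ} (g : ℂ → ℂ) (z v : Fin (N + 1) → ℂ) (hg : DifferentiableAt ℝ g (z 0)) :
    fderiv ℝ (fun w : Fin (N + 1) → ℂ => g (w 0)) z v = fderiv ℝ g (z 0) (v 0) := by
  have h : HasFDerivAt (fun w : Fin (N + 1) → ℂ => g (w 0))
      ((fderiv ℝ g (z 0)).comp (ContinuousLinearMap.proj (R := ℝ) (φ := fun _ => ℂ) 0)) z :=
    hg.hasFDerivAt.comp z
      (ContinuousLinearMap.proj (R := ℝ) (φ := fun _ : Fin (N + 1) => ℂ) 0).hasFDerivAt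
  rw [h.fderiv]
  rfl

theorem td_wd0 {N : ℕ} (g : ℂ → ℂ) (z : Fin (N + 1) → ℂ) (hg : DifferentiableAt ℝ g (z 0))
    (a : Fin (N + 1)) (ha : a ≠ 0) :
    wd a (fun w : Fin (N + 1) → ℂ => g (w 0)) z = 0 ∧
      wdb a (fun w : Fin (N + 1) → ℂ => g (w 0)) z = 0 := by
  unfold wd wdb
  rw [td_fd0 g z _ hg, td_fd0 g z _ hg, Pi.single_eq_of_ne ha.symm, Pi.single_eq_of_ne ha.symm,
    map_zero]
  simp

theorem td_wd00 {N : ℕ} (g : ℂ → ℂ) (z : Fin (N + 1) → ℂ) (hg : DifferentiableAt ℝ g (z 0)) :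
    wd 0 (fun w : Fin (N + 1) → ℂ => g (w 0)) z =
      (fderiv ℝ g (z 0) 1 - Complex.I * fderiv ℝ g (z 0) Complex.I) / 2 ∧
    wdb 0 (fun w : Fin (N + 1) → ℂ => g (w 0)) z =
      (fderiv ℝ g (z 0) 1 + Complex.I * fderiv ℝ g (z 0) Complex.I) / 2 := by
  unfold wd wdb
  rw [td_fd0 g z _ hg, td_fd0 g z _ hg, Pi.single_eq_same, Pi.single_eq_same]
  exact ⟨rfl, rfl⟩

theorem td_cast (f : ℂ → ℝ) (t v : ℂ) (hf : DifferentiableAt ℝ f t) :
    fderiv ℝ (fun s => ((f s : ℝ) : ℂ)) t v = ((fderiv ℝ f t v : ℝ) : ℂ) := by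
  have h : HasFDerivAt (fun s => ((f s : ℝ) : ℂ)) (Complex.ofRealCLM.comp (fderiv ℝ f t)) t :=
    (Complex.ofRealCLM.hasFDerivAt).comp t hf.hasFDerivAt
  rw [h.fderiv]
  rfl

theorem td_hess0 (h8 : T_W8) {N : ℕ} (f : ℂ → ℝ) (hf : ContDiff ℝ ∞ f)
    (z : Fin (N + 1) → ℂ) :
    hessR (fun w : Fin (N + 1) → ℂ => f (w 0)) z =
      ((lapl f (z 0) : ℝ) : ℂ) • Matrix.single (0 : Fin (N + 1)) (0 : Fin (N + 1)) (1 : ℂ) := by
  have h2le : (2 : WithTop ℕ∞) ≤ ∞ := WithTop.coe_le_coe.2 (le_top : (2 : ℕ∞) ≤ ⊤)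
  have hd : Differentiable ℝ f := hf.differentiable (by simp)
  have hfC : ContDiff ℝ ∞ (fun s => ((f s : ℝ) : ℂ)) := Complex.ofRealCLM.contDiff.comp hf
  have hdC : Differentiable ℝ (fun s => ((f s : ℝ) : ℂ)) := hfC.differentiable (by simp)
  have hf1 : ∀ v : ℂ, ContDiff ℝ ∞ (fun s => fderiv ℝ f s v) := fun v =>
    (hf.fderiv_right (m := ∞) (by simp)).clm_apply contDiff_const
  have hd1 : ∀ v : ℂ, Differentiable ℝ (fun s => fderiv ℝ f s v) := fun v =>
    (hf1 v).differentiable (by simp)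
  set G : ℂ → ℂ := fun s => (((fderiv ℝ f s 1 : ℝ) : ℂ) +
    Complex.I * ((fderiv ℝ f s Complex.I : ℝ) : ℂ)) / 2 with hG
  have hcast : ∀ v : ℂ, Differentiable ℝ (fun s => ((fderiv ℝ f s v : ℝ) : ℂ)) := fun v =>
    (Complex.ofRealCLM.contDiff (n := ∞) |>.comp (hf1 v)).differentiable (by simp)
  have hGd : Differentiable ℝ G := by
    intro s
    exact ((hcast 1 s).add ((hcast Complex.I s).const_mul Complex.I)).mul_const (1 / 2 : ℂ)
      |>.congr_of_eventuallyEq (Eventually.of_forall fun s => by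
        simp only [hG, Pi.add_apply]
        ring)
  have hb : ∀ w : Fin (N + 1) → ℂ, wdb 0 (fun w => ((f (w 0) : ℝ) : ℂ)) w = G (w 0) := by
    intro w
    rw [(td_wd00 (fun s => ((f s : ℝ) : ℂ)) w (hdC _)).2, td_cast f _ _ (hd _),
      td_cast f _ _ (hd _)]
  have hb' : ∀ (b : Fin (N + 1)), b ≠ 0 → ∀ w : Fin (N + 1) → ℂ,
      wdb b (fun w => ((f (w 0) : ℝ) : ℂ)) w = 0 := fun b hb w =>
    (td_wd0 (fun s => ((f s : ℝ) : ℂ)) w (hdC _) b hb).2
  have hGv : ∀ v : ℂ, fderiv ℝ G (z 0) v =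
      (((fderiv ℝ (fun s => fderiv ℝ f s 1) (z 0) v : ℝ) : ℂ) +
        Complex.I * ((fderiv ℝ (fun s => fderiv ℝ f s Complex.I) (z 0) v : ℝ) : ℂ)) / 2 := by
    intro v
    have e1 := (hcast 1 (z 0)).hasFDerivAt
    have e2 := (hcast Complex.I (z 0)).hasFDerivAt
    have e3 : HasFDerivAt G _ (z 0) := (e1.add (e2.const_mul Complex.I)).mul_const (1 / 2 : ℂ) |>.congr_of_eventuallyEq
      (Eventually.of_forall fun s => by
        simp only [hG, Pi.add_apply]
        ring)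
    rw [e3.fderiv]
    simp only [smul_apply, add_apply, smul_eq_mul]
    rw [td_cast _ _ _ (hd1 1 _), td_cast _ _ _ (hd1 Complex.I _)]
    ring
  ext a b
  change wd a (fun w => wdb b (fun w => ((f (w 0) : ℝ) : ℂ)) w) z = _
  rw [Matrix.smul_apply, smul_eq_mul]
  by_cases hb0 : b = 0
  · subst hb0
    have e1 : (fun w : Fin (N + 1) → ℂ => wdb 0 (fun w => ((f (w 0) : ℝ) : ℂ)) w) =
        fun w => G (w 0) := funext hb
    by_cases ha0 : a = 0
    · subst ha0
      rw [Matrix.single_apply_same, mul_one]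
      have hH := (h8 (Fin (N + 1)) (fun w => f (w 0)) z).2
        ((hf.comp (ContinuousLinearMap.proj (R := ℝ) (φ := fun _ : Fin (N + 1) => ℂ) 0).contDiff).contDiffAt.of_le h2le)
      have hH0 := congrFun (congrFun hH 0) 0
      rw [Matrix.conjTranspose_apply] at hH0
      have him : (wd 0 (fun w : Fin (N + 1) → ℂ => wdb 0 (fun w => ((f (w 0) : ℝ) : ℂ)) w) z).im
          = 0 := Complex.conj_eq_iff_im.1 hH0
      have hval : wd 0 (fun w : Fin (N + 1) → ℂ => wdb 0 (fun w => ((f (w 0) : ℝ) : ℂ)) w) z =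
          (fderiv ℝ G (z 0) 1 - Complex.I * fderiv ℝ G (z 0) Complex.I) / 2 := by
        rw [e1]
        exact (td_wd00 G z (hGd _)).1
      apply Complex.ext
      · rw [hval, hGv, hGv, Complex.ofReal_re]
        unfold lapl
        simp
        ring
      · rw [him, Complex.ofReal_im]
    · rw [Matrix.single_apply_of_ne (h := by
        intro h
        exact ha0 h.1.symm), mul_zero, e1]
      exact (td_wd0 G z (hGd _) a ha0).1
  · rw [Matrix.single_apply_of_ne (h := by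
        intro h
        exact hb0 h.2.symm), mul_zero]
    have e1 : (fun w : Fin (N + 1) → ℂ => wdb b (fun w => ((f (w 0) : ℝ) : ℂ)) w) =
        fun w => (0 : ℂ) := funext (hb' b hb0)
    rw [e1]
    unfold wd
    have : fderiv ℝ (fun _ : Fin (N + 1) → ℂ => (0 : ℂ)) z = 0 := (hasFDerivAt_const 0 z).fderiv
    rw [this]
    simp

end Pool.Agent.H89.EQ
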