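import Pool.Agent.H89.EQ.TD0

/-!
TD1: auxiliary facts for the row TD of the board eqd_modules (MP_75a732_an), the cut-off and the
integrals over the last coordinates.
-/

set_option autoImplicit false

namespace Pool.Agent.H89.EQ

open scoped BigOperators ComplexConjugate ContDiff ComplexOrder Topology
open MeasureTheory Pool.Agent.H92.EQ Filter

/-! ### Continuity -/

theorem td_mixc {X ι : Type} [TopologicalSpace X] [Fintype ι] [DecidableEq ι] {p m : ℕ}
    {s : Set X} {S : X → (Fin p → ι) → (Fin p → ι) → ℂ} {H : X → Fin m → Matrix ι ι ℂ}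
    (hS : ∀ I J, ContinuousOn (fun z => S z I J) s)
    (hH : ∀ j a b, ContinuousOn (fun z => H z j a b) s) :
    ContinuousOn (fun z => mixD (S z) (H z)) s := by
  unfold mixD
  refine continuousOn_finsetSum _ fun e _ => continuousOn_finsetSum _ fun e' _ => ?_
  exact (continuousOn_const.mul (hS _ _)).mul (continuousOn_finsetProd _ fun j _ => hH _ _ _)

theorem td_hessc (h6 : T_W6) {ι : Type} [Fintype ι] [DecidableEq ι] {U : Set (ι → ℂ)}
    (hU : IsOpen U) {u : (ι → ℂ) → ℝ} (hu : ContDiffOn ℝ ∞ u U) (a b : ι) :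
    ContinuousOn (fun z => hessR u z a b) U := by
  have h1 : ContDiffOn ℝ ∞ (fun w => ((u w : ℝ) : ℂ)) U :=
    Complex.ofRealCLM.contDiff.comp_contDiffOn hu
  have h2 := (h6 ι b _ U hU h1).2
  exact ((h6 ι a _ U hU h2).1).continuousOn

/-! ### The function `log |x|` -/

theorem td_nsqpos {N : ℕ} {x : Fin N → ℂ} (hx : x ≠ 0) : 0 < nsq x := by
  obtain ⟨i, hi⟩ := Function.ne_iff.1 hx
  have h3 : ‖x i‖ ^ 2 ≤ nsq x :=
    Finset.single_le_sum (f := fun i => ‖x i‖ ^ 2) (fun j _ => sq_nonneg _) (Finset.mem_univ i)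
  have h4 : 0 < ‖x i‖ := norm_pos_iff.2 hi
  have h5 : 0 < ‖x i‖ ^ 2 := by positivity
  linarith

theorem td_ellsmul {N : ℕ} (l : ℂ) (x : Fin N → ℂ) (hl : l ≠ 0) (hx : x ≠ 0) :
    ell (l • x) = ell x + Real.log ‖l‖ := by
  have h1 : nsq (l • x) = ‖l‖ ^ 2 * nsq x := by
    unfold nsq
    rw [Finset.mul_sum]
    refine Finset.sum_congr rfl fun i _ => ?_
    rw [Pi.smul_apply, smul_eq_mul, norm_mul, mul_pow]
  have h2 : 0 < ‖l‖ := norm_pos_iff.2 hl
  unfold ell
  rw [h1, Real.log_mul (by positivity) (td_nsqpos hx).ne', Real.log_pow]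
  push_cast
  ring

theorem td_LHT (h9 : T_W9) {N : ℕ} (V : Set ℂ) : LHT V 1 (ellT : (Fin (N + 1) → ℂ) → ℝ) := by
  constructor
  · have h1 := (h9 (Fin N)).1
    exact h1.comp (tlL N).contDiff.contDiffOn (fun z hz => hz.2)
  · intro l z hl hz
    unfold ellT
    rw [td_tlct, td_ellsmul l _ hl hz.2, one_mul]

theorem td_rad (h9 : T_W9) {N : ℕ} (z : Fin (N + 1) → ℂ) (hz : tl z ≠ 0) :
    (RadT z).submatrix Fin.succ Fin.succ = Rad (tl z) := by
  have hd : DifferentiableAt ℝ (cx (ell : (Fin N → ℂ) → ℝ)) (tl z) := by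
    have h1 := (h9 (Fin N)).1
    have h2 : ContDiffOn ℝ ∞ (cx (ell : (Fin N → ℂ) → ℝ)) {0}ᶜ :=
      Complex.ofRealCLM.contDiff.comp_contDiffOn h1
    exact (h2.contDiffAt (isOpen_compl_singleton.mem_nhds hz)).differentiableAt (by simp)
  obtain ⟨h1, h2⟩ := td_wdtl (cx ell) z hd
  obtain ⟨-, h3⟩ := h9 (Fin N)
  obtain ⟨h4, h5, -⟩ := h3 (tl z) hz
  have hn : ((nsq (tl z) : ℝ) : ℂ) ≠ 0 := by exact_mod_cast (td_nsqpos hz).ne'
  ext i j
  have e1 : gd (cx ellT) z i.succ = conj (tl z i) / (2 * (nsq (tl z) : ℂ)) := by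
    rw [← h4 i, ← h1 i]
    rfl
  have e2 : gdb (cx ellT) z j.succ = tl z j / (2 * (nsq (tl z) : ℂ)) := by
    rw [← h5 j, ← h2 j]
    rfl
  change gd (cx ellT) z i.succ * gdb (cx ellT) z j.succ = conj (tl z i) * tl z j /
    (4 * ((nsq (tl z) : ℝ) : ℂ) ^ 2)
  rw [e1, e2]
  field_simp
  ring

/-! ### The cut-off -/

/-- a bump at `2` -/
noncomputable def tdB : ContDiffBump (2 : ℝ) := ⟨1 / 2, 1, by norm_num, by norm_num⟩

/-- its normalisation -/
noncomputable def tdχ : ℝ → ℝ := tdB.normed volume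

theorem tdχ_smooth : ContDiff ℝ ∞ tdχ := tdB.contDiff_normed

theorem tdχ_int : ∫ t, tdχ t = 1 := tdB.integral_normed

theorem tdχ_cpt : HasCompactSupport tdχ := tdB.hasCompactSupport_normed

theorem tdχ_tsupp : tsupport tdχ = Set.Icc 1 3 := by
  have h1 : tsupport tdχ = Metric.closedBall 2 tdB.rOut := tdB.tsupport_normed_eq
  rw [h1, Real.closedBall_eq_Icc]
  have h2 : tdB.rOut = 1 := rfl
  rw [h2]
  norm_num

theorem tdχ_zero {s : ℝ} (hs : s ∉ Set.Icc (1 : ℝ) 3) :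
    tdχ s = 0 ∧ deriv tdχ s = 0 ∧ deriv (deriv tdχ) s = 0 := by
  rw [← tdχ_tsupp] at hs
  have h1 : tdχ =ᶠ[𝓝 s] 0 := notMem_tsupport_iff_eventuallyEq.1 hs
  have h2 : deriv tdχ =ᶠ[𝓝 s] 0 := by
    have := h1.deriv
    refine this.trans (Eventually.of_forall fun x => ?_)
    exact deriv_const x (0 : ℝ)
  refine ⟨h1.eq_of_nhds, h2.eq_of_nhds, ?_⟩
  have := h2.deriv.eq_of_nhds
  rw [this]
  exact deriv_const s (0 : ℝ)

/-- the second weight -/
noncomputable def tdθ (s : ℝ) : ℝ := deriv tdχ s + s * deriv (deriv tdχ) s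

theorem tdχ_d1 : ContDiff ℝ ∞ (deriv tdχ) := by
  have h : ContDiff ℝ (∞ + 1) tdχ := by simpa using tdχ_smooth
  exact (contDiff_succ_iff_deriv.1 h).2.2

theorem tdχ_d2 : ContDiff ℝ ∞ (deriv (deriv tdχ)) := by
  have h : ContDiff ℝ (∞ + 1) (deriv tdχ) := by simpa using tdχ_d1
  exact (contDiff_succ_iff_deriv.1 h).2.2

theorem tdθ_cont : Continuous tdθ :=
  tdχ_d1.continuous.add (continuous_id.mul tdχ_d2.continuous)

theorem tdθ_zero {s : ℝ} (hs : s ∉ Set.Icc (1 : ℝ) 3) : tdθ s = 0 := by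
  obtain ⟨-, h1, h2⟩ := tdχ_zero hs
  unfold tdθ
  rw [h1, h2, mul_zero, add_zero]

theorem tdθ_cpt : HasCompactSupport tdθ :=
  HasCompactSupport.intro (isCompact_Icc (a := (1 : ℝ)) (b := 3)) fun _ hs => tdθ_zero hs

theorem tdθ_int : ∫ t, tdθ t = 0 := by
  have h1 : ∀ x, HasDerivAt (fun s => s * deriv tdχ s) (tdθ x) x := by
    intro x
    have h2 : HasDerivAt (deriv tdχ) (deriv (deriv tdχ) x) x :=
      (tdχ_d1.differentiable (by simp) x).hasDerivAt
    have h3 := (hasDerivAt_id x).mul h2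
    have h4 : (1 : ℝ) * deriv tdχ x + id x * deriv (deriv tdχ) x = tdθ x := by
      unfold tdθ
      rw [one_mul]
      rfl
    rw [h4] at h3
    exact h3
  refine integral_eq_zero_of_hasDerivAt_of_integrable h1
    (tdθ_cont.integrable_of_hasCompactSupport tdθ_cpt) ?_
  refine (continuous_id.mul tdχ_d1.continuous).integrable_of_hasCompactSupport ?_
  refine HasCompactSupport.intro (isCompact_Icc (a := (1 : ℝ)) (b := 3)) fun s hs => ?_
  obtain ⟨-, h1, -⟩ := tdχ_zero hs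
  change s * deriv tdχ s = 0
  rw [h1, mul_zero]

/-! ### Integrals over the last coordinates -/

theorem td_S4 (h4 : T_S4) {N : ℕ} (hN : 0 < N) (ψ : (Fin N → ℂ) → ℝ)
    (hψ : ContinuousOn ψ {0}ᶜ)
    (hom : ∀ (r : ℝ) (z : Fin N → ℂ), 0 < r → z ≠ 0 → ψ ((r : ℂ) • z) = (r ^ (2 * N))⁻¹ * ψ z)
    (θ : ℝ → ℝ) (hθ : Continuous θ) (hθc : HasCompactSupport θ) :
    Integrable (fun x => ψ x * θ (ell x)) ∧ ∫ x, ψ x * θ (ell x) = (∫ t, θ t) * Iint ψ := by
  have h1 : IntegrableOn ψ {z : Fin N → ℂ | 0 ≤ ell z ∧ ell z < 1} :=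
    Pool.Agent.H68.EQ.integrableOn_dom hN
      ((hψ.mono (Pool.Agent.H68.EQ.shl_sub N)).integrableOn_compact
        (Pool.Agent.H68.EQ.shl_compact N))
  have h2 := h4 N ψ (fun _ => 0) 1 θ hN one_pos (measurable_of_continuousOn_compl_singleton 0 hψ)
    measurable_const h1 hom (fun _ _ _ _ => rfl) hθ.measurable
    (hθ.integrable_of_hasCompactSupport hθc)
  simp only [one_mul, add_zero, inv_one] at h2
  exact h2

/-! ### The compact set -/

/-- the compact set which contains the supports -/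
def tdK (N : ℕ) (f : ℂ → ℝ) : Set (Fin (N + 1) → ℂ) :=
  {z | z 0 ∈ tsupport f ∧ nsq (tl z) ∈ Set.Icc (Real.exp 2) (Real.exp 6)}

theorem tdK_compact {N : ℕ} {f : ℂ → ℝ} (hf : HasCompactSupport f) : IsCompact (tdK N f) := by
  refine Metric.isCompact_of_isClosed_isBounded ?_ ?_
  · exact ((isClosed_tsupport f).preimage (continuous_apply 0)).inter
      (isClosed_Icc.preimage ((Pool.Agent.H68.EQ.nsq_cont N).comp (td_tlc N)))
  · obtain ⟨R, hR⟩ := hf.isCompact.isBounded.subset_closedBall (0 : ℂ)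
    refine (Metric.isBounded_closedBall (x := (0 : Fin (N + 1) → ℂ))
      (r := max R (Real.exp 6))).subset ?_
    intro z hz
    have h3 : (1 : ℝ) ≤ Real.exp 6 := Real.one_le_exp (by norm_num)
    rw [mem_closedBall_zero_iff, pi_norm_le_iff_of_nonneg (le_trans (by positivity)
      (le_max_right R (Real.exp 6)))]
    intro i
    refine Fin.cases ?_ (fun i => ?_) i
    · have := hR hz.1
      rw [mem_closedBall_zero_iff] at this
      exact this.trans (le_max_left _ _)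
    · refine le_trans ?_ (le_max_right _ _)
      have h1 : ‖tl z i‖ ^ 2 ≤ nsq (tl z) :=
        Finset.single_le_sum (f := fun i => ‖tl z i‖ ^ 2) (fun j _ => sq_nonneg _)
          (Finset.mem_univ i)
      have h2 : nsq (tl z) ≤ Real.exp 6 := hz.2.2
      change ‖tl z i‖ ≤ Real.exp 6
      nlinarith [norm_nonneg (tl z i)]

theorem tdK_sub {N : ℕ} {f : ℂ → ℝ} {V : Set ℂ} (hf : tsupport f ⊆ V) :
    tdK N f ⊆ WV N V := by
  intro z hz
  refine ⟨hf hz.1, fun h0 => ?_⟩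
  have h1 : Real.exp 2 ≤ nsq (tl z) := hz.2.1
  have h2 : nsq (0 : Fin N → ℂ) = 0 := by simp [nsq]
  rw [h0, h2] at h1
  exact absurd h1 (not_le.2 (Real.exp_pos 2))

/-- outside of the compact set either `z 0` is not in the support or the logarithm is not in
`[1, 3]` -/
theorem tdK_not {N : ℕ} {f : ℂ → ℝ} {z : Fin (N + 1) → ℂ} (hz : z ∉ tdK N f)
    (h0 : z 0 ∈ tsupport f) : ellT z ∉ Set.Icc (1 : ℝ) 3 := by
  intro hs
  apply hz
  refine ⟨h0, ?_⟩
  unfold ellT ell at hs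
  have hne : tl z ≠ 0 := by
    intro h
    rw [h] at hs
    have h2 : nsq (0 : Fin N → ℂ) = 0 := by simp [nsq]
    rw [h2, Real.log_zero, mul_zero] at hs
    have := hs.1
    linarith
  have hp := td_nsqpos hne
  have h1 : 2 ≤ Real.log (nsq (tl z)) := by
    have := hs.1
    linarith
  have h3 : Real.log (nsq (tl z)) ≤ 6 := by
    have := hs.2
    linarith
  exact ⟨(Real.le_log_iff_exp_le hp).1 h1, (Real.log_le_iff_le_exp hp).1 h3⟩

theorem td_integrable {N : ℕ} {f : ℂ → ℝ} (hf : HasCompactSupport f)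
    (g : (Fin (N + 1) → ℂ) → ℝ) (hg : ContinuousOn g (tdK N f)) (h0 : ∀ z, z ∉ tdK N f → g z = 0) :
    Integrable g := by
  have h1 : IntegrableOn g (tdK N f) := hg.integrableOn_compact (tdK_compact hf)
  rwa [integrableOn_iff_integrable_of_support_subset] at h1
  intro z hz
  by_contra h
  exact hz (h0 z h)

end Pool.Agent.H89.EQ
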