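import Pool.Agent.H89.EQ.TD1

/-!
TD2: the pointwise identities for the row TD of the board eqd_modules (MP_75a732_an).
-/

set_option autoImplicit false

namespace Pool.Agent.H89.EQ

open scoped BigOperators ComplexConjugate ContDiff ComplexOrder Topology
open MeasureTheory Pool.Agent.H92.EQ Filter

/-- a list of matrices -/
def tdH {ι : Type} {q : ℕ} (X : Matrix ι ι ℂ) (Y : Fin q → Matrix ι ι ℂ) (Z : Matrix ι ι ℂ) :
    Fin (q + 1 + 1) → Matrix ι ι ℂ :=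
  Fin.cons (α := fun _ => Matrix ι ι ℂ) X (Fin.snoc (α := fun _ => Matrix ι ι ℂ) Y Z)

section
variable {ι : Type} {q : ℕ} (X X' : Matrix ι ι ℂ) (Y : Fin q → Matrix ι ι ℂ)
  (Z Z' : Matrix ι ι ℂ)

theorem tdH_up0 : Function.update (tdH X' Y Z) 0 X = tdH X Y Z := by
  unfold tdH
  rw [Fin.update_cons_zero]

theorem tdH_upl : Function.update (tdH X Y Z') (Fin.last (q + 1)) Z = tdH X Y Z := by
  unfold tdH
  rw [← Fin.succ_last, ← Fin.cons_update, Fin.update_snoc_last]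

theorem tdH_snoc : tdH X Y Z = Fin.snoc (α := fun _ => Matrix ι ι ℂ)
    (Fin.cons (α := fun _ => Matrix ι ι ℂ) X Y) Z := by
  unfold tdH
  rw [Fin.cons_snoc_eq_snoc_cons]

theorem tdH_0 : tdH X Y Z 0 = X := rfl

theorem tdH_last : tdH X Y Z (Fin.last (q + 1)) = Z := by
  rw [tdH_snoc, Fin.snoc_last]

theorem tdH_mid (j : Fin q) : tdH X Y Z (Fin.succ (Fin.castSucc j)) = Y j := by
  unfold tdH
  rw [Fin.cons_succ, Fin.snoc_castSucc]

/-- cases -/
theorem tdH_cases {P : Fin (q + 1 + 1) → Prop} (h0 : P 0) (hl : P (Fin.last (q + 1)))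
    (hm : ∀ j : Fin q, P (Fin.succ (Fin.castSucc j))) (i : Fin (q + 1 + 1)) : P i := by
  refine Fin.cases h0 (fun i => ?_) i
  refine Fin.lastCases ?_ (fun j => ?_) i
  · exact hl
  · exact hm j

variable [Fintype ι] [DecidableEq ι] {p : ℕ} (S : (Fin p → ι) → (Fin p → ι) → ℂ)

theorem tdH_smul (h1 : T_A1) (c : ℂ) :
    mixD S (tdH (c • X) Y Z) = c * mixD S (tdH X Y Z) := by
  rw [← tdH_up0 (c • X) 0, ← tdH_up0 X 0 Y Z]
  exact (h1 ι p (q + 1 + 1) S S (tdH 0 Y Z) 0 X X c).2.1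

theorem tdH_lin (h1 : T_A1) (c : ℂ) :
    mixD S (tdH X Y (c • Z + Z')) = c * mixD S (tdH X Y Z) + mixD S (tdH X Y Z') := by
  rw [← tdH_upl X Y (c • Z + Z') 0, ← tdH_upl X Y Z 0, ← tdH_upl X Y Z' 0]
  rw [(h1 ι p (q + 1 + 1) S S (tdH X Y 0) (Fin.last (q + 1)) (c • Z) Z' c).1,
    (h1 ι p (q + 1 + 1) S S (tdH X Y 0) (Fin.last (q + 1)) Z Z c).2.1]

end

section
variable {N p q : ℕ} {V : Set ℂ} {S : Form (Fin (N + 1)) p}
  {v : Fin q → (Fin (N + 1) → ℂ) → ℝ} {c : Fin q → ℝ}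

theorem td_ctne {z : Fin (N + 1) → ℂ} (hz : z ∈ WV N V) : (ct 0 (tl z)) ≠ 0 := by
  intro h
  apply hz.2
  have := congrArg tl h
  rw [td_tlct] at this
  rw [this]
  rfl

theorem td_kil (hTC : T_TC) (hV : IsOpen V) (hS : FormT V S) {w : (Fin (N + 1) → ℂ) → ℝ}
    {c0 : ℝ} (hw : LHT V c0 w) {z : Fin (N + 1) → ℂ} (hz : z ∈ WV N V) :
    MKilL (ct 0 (tl z)) (hessR w z) ∧ MKilR (ct 0 (tl z)) (hessR w z) :=
  ((hTC N p 1 V S (fun _ => w) (fun _ => c0) hV hS (fun _ => hw)).1 z hz 0).2.2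

theorem td_QT (hTC : T_TC) (hV : IsOpen V) (hS : FormT V S) {w : (Fin (N + 1) → ℂ) → ℝ}
    {c0 : ℝ} (hw : LHT V c0 w) (hv : ∀ j, LHT V (c j) (v j)) {z : Fin (N + 1) → ℂ}
    (hz : z ∈ WV N V) :
    (QT S (Fin.cons (α := fun _ => (Fin (N + 1) → ℂ) → ℝ) w v) z : ℂ) =
      mixD (S z) (tdH (hessR w z) (fun j => hessR (v j) z) (RadT z)) := by
  have h1 := (hTC N p (q + 1) V S (Fin.cons (α := fun _ => (Fin (N + 1) → ℂ) → ℝ) w v)
    (Fin.cons (α := fun _ => ℝ) c0 c) hV hS (fun j => by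
      refine Fin.cases ?_ (fun j => ?_) j
      · exact hw
      · exact hv j)).2.2.1 z hz
  rw [h1, tdH_snoc]
  congr 2
  funext j
  refine Fin.cases rfl (fun j => rfl) j

theorem td_QTc (hTC : T_TC) (hV : IsOpen V) (hS : FormT V S) {w : (Fin (N + 1) → ℂ) → ℝ}
    {c0 : ℝ} (hw : LHT V c0 w) (hv : ∀ j, LHT V (c j) (v j)) :
    ContinuousOn (fun z => QT S (Fin.cons (α := fun _ => (Fin (N + 1) → ℂ) → ℝ) w v) z)
      (WV N V) ∧
    ∀ z ∈ WV N V, ∀ l : ℂ, l ≠ 0 →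
      QT S (Fin.cons (α := fun _ => (Fin (N + 1) → ℂ) → ℝ) w v) (ct (z 0) (l • tl z)) =
      (‖l‖ ^ (2 * N))⁻¹ * QT S (Fin.cons (α := fun _ => (Fin (N + 1) → ℂ) → ℝ) w v) z := by
  have h1 := hTC N p (q + 1) V S (Fin.cons (α := fun _ => (Fin (N + 1) → ℂ) → ℝ) w v)
    (Fin.cons (α := fun _ => ℝ) c0 c) hV hS (fun j => by
      refine Fin.cases ?_ (fun j => ?_) j
      · exact hw
      · exact hv j)
  exact ⟨h1.2.2.2.1, h1.2.1⟩

/-- the left side -/
theorem td_left (hA1 : T_A1) (hA7 : T_A7) (h9 : T_W9) (hTC : T_TC) (hV : IsOpen V)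
    (hS : FormT V S) {w : (Fin (N + 1) → ℂ) → ℝ} {c0 : ℝ} (hw : LHT V c0 w)
    (hv : ∀ j, LHT V (c j) (v j)) {z : Fin (N + 1) → ℂ} (hz : z ∈ WV N V) :
    mixD (S z) (tdH (hessR w z) (fun j => hessR (v j) z)
      ((ellT z : ℂ) • hessR ellT z + RadT z)) =
      (QT S (Fin.cons (α := fun _ => (Fin (N + 1) → ℂ) → ℝ) w v) z : ℂ) := by
  rw [tdH_lin _ _ _ _ _ hA1, td_QT hTC hV hS hw hv hz]
  have h1 : mixD (S z) (tdH (hessR w z) (fun j => hessR (v j) z) (hessR ellT z)) = 0 := by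
    refine hA7 _ p _ (S z) _ (ct 0 (tl z)) (td_ctne hz) (hS.kilL z hz) ?_
    refine tdH_cases ?_ ?_ ?_
    · rw [tdH_0]
      exact (td_kil hTC hV hS hw hz).1
    · rw [tdH_last]
      exact (td_kil hTC hV hS (td_LHT h9 V) hz).1
    · intro j
      rw [tdH_mid]
      exact (td_kil hTC hV hS (hv j) hz).1
  rw [h1, mul_zero, zero_add]

/-- the right side -/
theorem td_right (hA1 : T_A1) (hA16 : T_A16) (h7 : T_W7) (h8 : T_W8) (h9 : T_W9)
    (hTC : T_TC) (hV : IsOpen V)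
    (hS : FormT V S) (hv : ∀ j, LHT V (c j) (v j)) (f : ℂ → ℝ) (hf : ContDiff ℝ ∞ f)
    {z : Fin (N + 1) → ℂ} (hz : z ∈ WV N V) :
    mixD (S z) (tdH (hessR (fun w => f (w 0) * tdχ (ellT w)) z) (fun j => hessR (v j) z)
      ((ellT z : ℂ) • hessR ellT z + RadT z)) =
      ((tdχ (ellT z) * lapl f (z 0) : ℝ) : ℂ) *
        mixD (S z) (tdH (Matrix.single 0 0 1) (fun j => hessR (v j) z) (RadT z)) +
      ((f (z 0) * tdθ (ellT z) *
        QT S (Fin.cons (α := fun _ => (Fin (N + 1) → ℂ) → ℝ) ellT v) z : ℝ) : ℂ) := by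
  have h2le : (2 : WithTop ℕ∞) ≤ ∞ := WithTop.coe_le_coe.2 (le_top : (2 : ℕ∞) ≤ ⊤)
  have hell := td_LHT h9 (N := N) V
  have hellz : ContDiffAt ℝ 2 (ellT : (Fin (N + 1) → ℂ) → ℝ) z :=
    (hell.smooth.contDiffAt ((td_open hV).mem_nhds hz)).of_le h2le
  have hφ : ContDiff ℝ ∞ (fun w : Fin (N + 1) → ℂ => f (w 0)) :=
    hf.comp (ContinuousLinearMap.proj (R := ℝ) (φ := fun _ : Fin (N + 1) => ℂ) 0).contDiff
  have hφz : ContDiffAt ℝ 2 (fun w : Fin (N + 1) → ℂ => f (w 0)) z :=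
    hφ.contDiffAt.of_le h2le
  have hχz : ContDiffAt ℝ 2 tdχ (ellT z) := tdχ_smooth.contDiffAt.of_le h2le
  have hψz : ContDiffAt ℝ 2 (fun w : Fin (N + 1) → ℂ => tdχ (ellT w)) z := hχz.comp z hellz
  obtain ⟨e1, e2, e3, -⟩ := h7 (Fin (N + 1)) ellT ellT tdχ z hellz hellz hχz
  have e4 := (h7 (Fin (N + 1)) (fun w => f (w 0)) (fun w => tdχ (ellT w)) (fun s => s) z hφz hψz
    contDiffAt_id).2.2.2
  have hfz : DifferentiableAt ℝ (fun s => ((f s : ℝ) : ℂ)) (z 0) :=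
    (Complex.ofRealCLM.contDiff (n := ∞) |>.comp hf).differentiable (by simp) _
  set x := gd (cx ellT) z with hx
  set y := gdb (cx ellT) z with hy
  set b := gd (cx fun w : Fin (N + 1) → ℂ => f (w 0)) z with hb
  set c' := gdb (cx fun w : Fin (N + 1) → ℂ => f (w 0)) z with hc'
  have hb0 : ∀ a : Fin (N + 1), a ≠ 0 → b a = 0 := fun a ha =>
    (td_wd0 (fun s => ((f s : ℝ) : ℂ)) z hfz a ha).1
  have hc0 : ∀ a : Fin (N + 1), a ≠ 0 → c' a = 0 := fun a ha =>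
    (td_wd0 (fun s => ((f s : ℝ) : ℂ)) z hfz a ha).2
  have hhess : hessR (fun w => f (w 0) * tdχ (ellT w)) z =
      ((tdχ (ellT z) : ℝ) : ℂ) • hessR (fun w : Fin (N + 1) → ℂ => f (w 0)) z +
      (((f (z 0) : ℝ) : ℂ) * ((deriv tdχ (ellT z) : ℝ) : ℂ)) • hessR ellT z +
      (((f (z 0) : ℝ) : ℂ) * ((deriv (deriv tdχ) (ellT z) : ℝ) : ℂ)) • out x y +
      ((deriv tdχ (ellT z) : ℝ) : ℂ) • (out x c' + out b y) := by
    rw [e4, e3]
    have g1 : gd (cx fun w => tdχ (ellT w)) z =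
        fun a => ((deriv tdχ (ellT z) : ℝ) : ℂ) * x a := funext e1
    have g2 : gdb (cx fun w => tdχ (ellT w)) z =
        fun a => ((deriv tdχ (ellT z) : ℝ) : ℂ) * y a := funext e2
    rw [g1, g2]
    ext i j
    simp only [Matrix.add_apply, Matrix.smul_apply, smul_eq_mul, out]
    ring
  have hA := hA16 (Fin (N + 1)) p (q + 1 + 1) (S z)
    (tdH 0 (fun j => hessR (v j) z) 0) 0 (Fin.last (q + 1))
    (hessR (fun w : Fin (N + 1) → ℂ => f (w 0)) z) (hessR ellT z) (ct 0 (tl z)) x y b c'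
    ((f (z 0) : ℝ) : ℂ) ((tdχ (ellT z) : ℝ) : ℂ) ((deriv tdχ (ellT z) : ℝ) : ℂ)
    ((deriv (deriv tdχ) (ellT z) : ℝ) : ℂ) ((ellT z : ℝ) : ℂ)
    (by
      rw [← Fin.succ_last]
      exact (Fin.succ_ne_zero _).symm)
    (td_ctne hz) (hS.kilL z hz) (hS.kilR z hz)
    (by
      refine tdH_cases ?_ ?_ ?_
      · intro h _
        exact absurd rfl h
      · intro _ h
        exact absurd rfl h
      · intro j _ _
        rw [tdH_mid]
        exact td_kil hTC hV hS (hv j) hz)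
    (by
      intro b'
      rw [td_hess0 h8 f hf z]
      refine Finset.sum_eq_zero fun a _ => ?_
      refine Fin.cases ?_ (fun a => ?_) a
      · change (0 : ℂ) * _ = 0
        rw [zero_mul]
      · rw [Matrix.smul_apply, Matrix.single_apply_of_ne (h := by
          intro h
          exact Fin.succ_ne_zero _ h.1.symm), smul_zero, mul_zero])
    (by
      intro a'
      rw [td_hess0 h8 f hf z]
      refine Finset.sum_eq_zero fun a _ => ?_
      refine Fin.cases ?_ (fun a => ?_) a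
      · change conj (0 : ℂ) * _ = 0
        rw [map_zero, zero_mul]
      · rw [Matrix.smul_apply, Matrix.single_apply_of_ne (h := by
          intro h
          exact Fin.succ_ne_zero _ h.2.symm), smul_zero, mul_zero])
    (td_kil hTC hV hS hell hz).1 (td_kil hTC hV hS hell hz).2
    (by
      refine Finset.sum_eq_zero fun a _ => ?_
      refine Fin.cases ?_ (fun a => ?_) a
      · change (0 : ℂ) * _ = 0
        rw [zero_mul]
      · rw [hb0 _ (Fin.succ_ne_zero a), mul_zero])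
    (by
      refine Finset.sum_eq_zero fun a _ => ?_
      refine Fin.cases ?_ (fun a => ?_) a
      · change conj (0 : ℂ) * _ = 0
        rw [map_zero, zero_mul]
      · rw [hc0 _ (Fin.succ_ne_zero a), mul_zero])
  simp only [tdH_up0, tdH_upl] at hA
  have hR : RadT z = out x y := rfl
  rw [hhess, hR, hA, td_hess0 h8 f hf z, tdH_smul _ _ _ _ hA1]
  have hQ := td_QT hTC hV hS hell hv hz
  rw [hR] at hQ
  rw [← hQ]
  unfold tdθ
  push_cast
  ring

/-- the restriction -/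
theorem td_res (hA11 : T_A11) (h5 : T_S5) (h9 : T_W9) (hTA : T_TA) (hV : IsOpen V)
    (hN : p + q + 1 = N) (hS : FormT V S) (hv : ∀ j, LHT V (c j) (v j)) {t : ℂ} (ht : t ∈ V)
    {x : Fin N → ℂ} (hx : x ≠ 0) :
    mixD (S (ct t x)) (tdH (Matrix.single 0 0 1) (fun j => hessR (v j) (ct t x))
      (RadT (ct t x))) = (Q (res S t) (fun j x => v j (ct t x)) x : ℂ) := by
  obtain ⟨r1, r2⟩ := hTA N p V t hV ht
  have h1 := (h5 N p q (res S t) (fun j x => v j (ct t x)) c hN (r1 S hS)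
    (fun j => (r2 (c j) (v j) (hv j)).1)).2.2 x hx
  rw [h1]
  unfold tdH
  rw [hA11 N p (q + 1)]
  congr 1
  funext j
  refine Fin.lastCases ?_ (fun j => ?_) j
  · rw [Fin.snoc_last, Fin.snoc_last, td_rad h9 (ct t x) (by rw [td_tlct]; exact hx), td_tlct]
  · rw [Fin.snoc_castSucc, Fin.snoc_castSucc]
    exact ((r2 (c j) (v j) (hv j)).2 x hx).symm

end

end Pool.Agent.H89.EQ
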